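import Pool.Agent.LibEN20.Defs

/-!
[EN20 E5] (SHORT/MEDIUM, only Mathlib) Entropy numbers.
`cov_ent`: `Cov K k (ent K k + (1/2) ^ k)` for a compact (totally bounded) `K`: the set `{r | 0 ≤ r ∧ Cov K k r}` is nonempty (`K` bounded, one ball) so some `r < ent K k + (1/2) ^ k` is in it (`Real.sInf_le_iff` / `exists_lt_of_csInf_lt`).
`ent_anti`: `ent K (k + 1) ≤ ent K k` (`csInf_le_csInf`, bounded below by `0`). `ent_nonneg`.
`cov_sub`: `K - K` is covered by `2 ^ (2 k)` balls of radius `2 e` (differences of centres). `cov_mono`.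
`exists_seq`: with `ε k = 2 * (ent K (k / 2) + (1/2) ^ (k / 2))`: decreasing, `≥ 0`, `Cov (K - K) k (ε k)` (as `2 * (k / 2) ≤ k`), summable (`∑ ε k / (k + 1) < ∞` by grouping `k = 2 j, 2 j + 1`: `ε k / (k+1) ≤ 2 (ent K j + 2 ^ (-j)) / (j + 1)`; for instance
`Summable` of even and odd parts: `summable_of_sum..`, or `Nat.divModEquiv`, or the bound of all partial sums).
-/

namespace Pool.Agent.LibEN20

open Pointwise

variable {E : Type*} [NormedAddCommGroup E]

theorem ent_nonneg (K : Set E) (k : ℕ) : 0 ≤ ent K k := by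
  exact Real.sInf_nonneg fun r hr => hr.1

theorem cov_mono {K : Set E} {k l : ℕ} {r t : ℝ} (h : Cov K k r) (hkl : k ≤ l) (hr : r ≤ t) : Cov K l t := by
  obtain ⟨s, hs, h⟩ := h
  refine ⟨s, hs.trans (Nat.pow_le_pow_right (by norm_num) hkl), fun x hx => ?_⟩
  obtain ⟨y, hy, hxy⟩ := h x hx
  exact ⟨y, hy, hxy.trans hr⟩

private theorem E5_ne {K : Set E} (hK : IsCompact K) (k : ℕ) :
    {r : ℝ | 0 ≤ r ∧ Cov K k r}.Nonempty := by
  obtain ⟨R, hR⟩ := hK.isBounded.exists_norm_le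
  refine ⟨max R 0, le_max_right _ _, {0}, ?_, fun x hx => ⟨0, Finset.mem_singleton_self 0, ?_⟩⟩
  · rw [Finset.card_singleton]
    exact Nat.one_le_two_pow
  · rw [sub_zero]
    exact (hR x hx).trans (le_max_left _ _)

private theorem E5_bdd (K : Set E) (k : ℕ) : BddBelow {r : ℝ | 0 ≤ r ∧ Cov K k r} :=
  ⟨0, fun _ hr => hr.1⟩

theorem ent_anti {K : Set E} (hK : IsCompact K) : Antitone (ent K) := by
  refine antitone_nat_of_succ_le fun k => ?_
  refine csInf_le_csInf (E5_bdd K (k + 1)) (E5_ne hK k) ?_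
  rintro r ⟨h1, h2⟩
  exact ⟨h1, cov_mono h2 (Nat.le_succ k) le_rfl⟩

theorem cov_ent {K : Set E} (hK : IsCompact K) (k : ℕ) : Cov K k (ent K k + (1 / 2) ^ k) := by
  have h1 : sInf {r : ℝ | 0 ≤ r ∧ Cov K k r} < ent K k + (1 / 2) ^ k := by
    have h2 : (0 : ℝ) < (1 / 2) ^ k := by positivity
    have h3 : ent K k = sInf {r : ℝ | 0 ≤ r ∧ Cov K k r} := rfl
    rw [← h3]
    linarith
  obtain ⟨r, hr, hlt⟩ := exists_lt_of_csInf_lt (E5_ne hK k) h1
  exact cov_mono hr.2 le_rfl hlt.le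

theorem cov_sub {K : Set E} {k : ℕ} {e : ℝ} (h : Cov K k e) : Cov (K - K) (2 * k) (2 * e) := by
  classical
  obtain ⟨s, hs, h⟩ := h
  refine ⟨Finset.image₂ (fun a b => a - b) s s, ?_, ?_⟩
  · refine (Finset.card_image₂_le _ _ _).trans ?_
    rw [two_mul, pow_add]
    exact Nat.mul_le_mul hs hs
  · intro z hz
    obtain ⟨x, hx, y, hy, rfl⟩ := Set.mem_sub.1 hz
    obtain ⟨a, ha, hxa⟩ := h x hx
    obtain ⟨b, hb, hyb⟩ := h y hy
    refine ⟨a - b, Finset.mem_image₂_of_mem ha hb, ?_⟩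
    have h1 : x - y - (a - b) = (x - a) - (y - b) := by abel
    rw [h1]
    refine (norm_sub_le _ _).trans ?_
    linarith

private theorem E5_half {h : ℕ → ℝ} (hs : Summable h) : Summable fun m : ℕ => h (m / 2) := by
  have e1 : HasSum (fun k : ℕ => (fun m : ℕ => h (m / 2)) (2 * k)) (∑' k, h k) := by
    have h1 : (fun k : ℕ => (fun m : ℕ => h (m / 2)) (2 * k)) = h := by
      funext k
      show h (2 * k / 2) = h k
      congr 1
      omega
    rw [h1]
    exact hs.hasSum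
  have e2 : HasSum (fun k : ℕ => (fun m : ℕ => h (m / 2)) (2 * k + 1)) (∑' k, h k) := by
    have h1 : (fun k : ℕ => (fun m : ℕ => h (m / 2)) (2 * k + 1)) = h := by
      funext k
      show h ((2 * k + 1) / 2) = h k
      congr 1
      omega
    rw [h1]
    exact hs.hasSum
  exact (e1.even_add_odd e2).summable

theorem exists_seq {K : Set E} (hK : IsCompact K) (hs : Summable fun k : ℕ => ent K k / (k + 1)) :
    ∃ ε : ℕ → ℝ, Antitone ε ∧ (∀ k, 0 ≤ ε k) ∧ (∀ k, Cov (K - K) k (ε k)) ∧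
      Summable fun k : ℕ => ε k / (k + 1) := by
  have hpos : ∀ k : ℕ, (0 : ℝ) ≤ 2 * (ent K (k / 2) + (1 / 2) ^ (k / 2)) := by
    intro k
    have h1 := ent_nonneg K (k / 2)
    positivity
  refine ⟨fun k => 2 * (ent K (k / 2) + (1 / 2) ^ (k / 2)), ?_, hpos, ?_, ?_⟩
  · intro k l hkl
    have h1 : k / 2 ≤ l / 2 := Nat.div_le_div_right hkl
    have h2 := ent_anti hK h1
    have h3 : ((1 : ℝ) / 2) ^ (l / 2) ≤ (1 / 2) ^ (k / 2) :=
      pow_le_pow_of_le_one (by norm_num) (by norm_num) h1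
    show 2 * (ent K (l / 2) + (1 / 2) ^ (l / 2)) ≤ 2 * (ent K (k / 2) + (1 / 2) ^ (k / 2))
    linarith
  · intro k
    exact cov_mono (cov_sub (cov_ent hK (k / 2))) (by omega) le_rfl
  · have hg : Summable fun j : ℕ => 2 * (ent K j / (j + 1) + (1 / 2) ^ j) := by
      refine Summable.mul_left 2 (hs.add ?_)
      exact summable_geometric_of_lt_one (by norm_num) (by norm_num)
    refine Summable.of_nonneg_of_le (fun k => ?_) (fun k => ?_) (E5_half hg)
    · have := hpos k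
      positivity
    · have h1 := ent_nonneg K (k / 2)
      have h2 : (0 : ℝ) < (1 / 2) ^ (k / 2) := by positivity
      have h3 : (((k / 2 : ℕ) : ℝ)) ≤ k := by
        exact_mod_cast Nat.div_le_self k 2
      have h4 : (0 : ℝ) ≤ ((k / 2 : ℕ) : ℝ) := Nat.cast_nonneg _
      have h5 : ent K (k / 2) / ((k : ℝ) + 1) ≤ ent K (k / 2) / (((k / 2 : ℕ) : ℝ) + 1) :=
        div_le_div_of_nonneg_left h1 (by linarith) (by linarith)
      have h6 : ((1 : ℝ) / 2) ^ (k / 2) / ((k : ℝ) + 1) ≤ (1 / 2) ^ (k / 2) :=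
        div_le_self h2.le (by linarith)
      have h7 : 2 * (ent K (k / 2) + (1 / 2) ^ (k / 2)) / ((k : ℝ) + 1) =
          2 * (ent K (k / 2) / ((k : ℝ) + 1) + (1 / 2) ^ (k / 2) / ((k : ℝ) + 1)) := by
        ring
      rw [h7]
      linarith

end Pool.Agent.LibEN20
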