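import Pool.Agent.LibEN20.Defs

/-!
[EN20 C1] (SHORT/MEDIUM, only Mathlib) A countable separating family. `K` compact in a metric space is second countable. For `p = (x, y)`, `x ≠ y`, of the space `K × K` (subtypes) choose `φ p` and the open set `U p = {(x', y') : φ p x' ≠ φ p y'}` (preimage of an open set under a
continuous map, `continuousOn_iff_continuous_restrict`). `TopologicalSpace.isOpen_iUnion_countable` gives countably many `p` with the same union, which contains all pairs `x ≠ y`. Enumerate them by `ℕ` (`Set.Countable.exists_eq_range`; if there is none, `K` has at most one point: take `φ n = 0`).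
-/

namespace Pool.Agent.LibEN20

theorem countable_sep {E : Type*} [NormedAddCommGroup E] [Module ℝ E] {K : Set E} (hK : IsCompact K)
    (h : ∀ x ∈ K, ∀ y ∈ K, x ≠ y → ∃ φ : E →ₗ[ℝ] ℝ, ContinuousOn φ K ∧ φ x ≠ φ y) :
    ∃ φ : ℕ → E →ₗ[ℝ] ℝ, (∀ n, ContinuousOn (φ n) K) ∧
      ∀ x ∈ K, ∀ y ∈ K, (∀ n, φ n x = φ n y) → x = y := by
  classical
  have : CompactSpace K := isCompact_iff_compactSpace.mp hK
  let U : {φ : E →ₗ[ℝ] ℝ // ContinuousOn φ K} → Set (K × K) :=
    fun φ => {p | φ.1 (p.1 : E) ≠ φ.1 (p.2 : E)}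
  have hU : ∀ i, IsOpen (U i) := by
    intro i
    have hc : Continuous (fun x : K => i.1 (x : E)) := continuousOn_iff_continuous_domRestrict.mp i.2
    exact isOpen_ne_fun (hc.comp continuous_fst) (hc.comp continuous_snd)
  obtain ⟨T, hT, hTU⟩ := TopologicalSpace.isOpen_iUnion_countable U hU
  have key : ∀ x (hx : x ∈ K) y (hy : y ∈ K), x ≠ y → ∃ i ∈ T, i.1 x ≠ i.1 y := by
    intro x hx y hy hne
    obtain ⟨φ, hφ, hφne⟩ := h x hx y hy hne
    have hm : ((⟨x, hx⟩, ⟨y, hy⟩) : K × K) ∈ ⋃ i ∈ T, U i := by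
      rw [hTU]
      exact Set.mem_iUnion.mpr ⟨⟨φ, hφ⟩, hφne⟩
    obtain ⟨i, hi⟩ := Set.mem_iUnion.mp hm
    obtain ⟨hiT, hi2⟩ := Set.mem_iUnion.mp hi
    exact ⟨i, hiT, hi2⟩
  by_cases hTe : T.Nonempty
  · obtain ⟨f, hf⟩ := hT.exists_eq_range hTe
    refine ⟨fun n => (f n).1, fun n => (f n).2, ?_⟩
    intro x hx y hy hxy
    by_contra hne
    obtain ⟨i, hiT, hi⟩ := key x hx y hy hne
    rw [hf] at hiT
    obtain ⟨n, rfl⟩ := hiT
    exact hi (hxy n)
  · refine ⟨fun _ => 0, fun n =>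
      (continuousOn_const : ContinuousOn (fun _ : E => (0 : ℝ)) K), ?_⟩
    intro x hx y hy _
    by_contra hne
    obtain ⟨i, hiT, hi⟩ := key x hx y hy hne
    exact hTe ⟨i, hiT⟩

end Pool.Agent.LibEN20
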