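import Pool.Agent.LibEN20.Defs

/-!
[EN20 C2] (SHORT/MEDIUM, only Mathlib) Pure linear algebra. `exists_indep`: `exists_linearIndependent ℝ (Set.range f)` gives `b ⊆ range f`, linearly independent, with the same span; `b` is countable, and infinite (otherwise the span is finite-dimensional, `FiniteDimensional.span_of_finite`): a bijection `ℕ ≃ b` (`Denumerable`), `e n` with `f (e n) = ` the `n`-th element.
`not_fin`: if `S = span (range f)` is finite-dimensional then the linear map `V → Module.Dual ℝ S`, `v ↦ (w ↦ w v)`, is injective, so `V` is finite-dimensional (`FiniteDimensional.of_injective`).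
`pi_surj`: the range of `LinearMap.pi f` is a submodule of `Fin n → ℝ`; if it is not `⊤` there is a nonzero functional vanishing on it (`Submodule.exists_le_ker_of_lt_top`), i.e. numbers `c i`, not all zero, with `∑ c i • f i = 0`.
-/

namespace Pool.Agent.LibEN20

private theorem C2_aux {V W : Type*} [AddCommGroup V] [Module ℝ V] [AddCommGroup W] [Module ℝ W]
    (hW : FiniteDimensional ℝ W) (φ : W →ₗ[ℝ] (V →ₗ[ℝ] ℝ)) (h : ∀ v, (∀ w, φ w v = 0) → v = 0) :
    FiniteDimensional ℝ V := by
  have hinj : Function.Injective (LinearMap.flip φ : V →ₗ[ℝ] Module.Dual ℝ W) := by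
    rw [← LinearMap.ker_eq_bot, LinearMap.ker_eq_bot']
    intro v hv
    apply h v
    intro w
    have h1 : (LinearMap.flip φ) v w = 0 := by rw [hv]; rfl
    exact h1
  exact FiniteDimensional.of_injective (LinearMap.flip φ : V →ₗ[ℝ] Module.Dual ℝ W) hinj

theorem exists_indep {W : Type*} [AddCommGroup W] [Module ℝ W] (f : ℕ → W)
    (h : ¬ FiniteDimensional ℝ (Submodule.span ℝ (Set.range f))) :
    ∃ e : ℕ → ℕ, Function.Injective e ∧ LinearIndependent ℝ (fun n => f (e n)) ∧
      Submodule.span ℝ (Set.range f) = Submodule.span ℝ (Set.range fun n => f (e n)) := by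
  obtain ⟨b, hb, hspan, hli⟩ := exists_linearIndependent ℝ (Set.range f)
  have hinf : Infinite b := by
    rw [Set.infinite_coe_iff]
    intro hfin
    apply h
    rw [← hspan]
    exact FiniteDimensional.span_of_finite ℝ hfin
  have hcnt : Countable b := ((Set.countable_range f).mono hb).to_subtype
  obtain ⟨hden⟩ := nonempty_denumerable b
  let g : ℕ ≃ b := (Denumerable.eqv b).symm
  have hg : ∀ n, ∃ k, f k = (g n : W) := fun n => hb (g n).2
  choose e he using hg
  have hfe : (fun n => f (e n)) = fun n => (g n : W) := funext he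
  refine ⟨e, ?_, ?_, ?_⟩
  · intro n m hnm
    have h1 : (g n : W) = (g m : W) := by rw [← he n, ← he m, hnm]
    exact g.injective (Subtype.ext h1)
  · rw [hfe]
    exact hli.comp g g.injective
  · rw [← hspan, hfe]
    congr 1
    ext w
    constructor
    · intro hw
      exact ⟨g.symm ⟨w, hw⟩, by simp⟩
    · rintro ⟨n, rfl⟩
      exact (g n).2

theorem not_fin {V : Type*} [AddCommGroup V] [Module ℝ V] (hV : ¬ FiniteDimensional ℝ V) (f : ℕ → V →ₗ[ℝ] ℝ)
    (hf : ∀ v, (∀ n, f n v = 0) → v = 0) : ¬ FiniteDimensional ℝ (Submodule.span ℝ (Set.range f)) := by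
  intro hfin
  apply hV
  refine C2_aux (W := Submodule.span ℝ (Set.range f)) hfin
    (Submodule.subtype (Submodule.span ℝ (Set.range f))) ?_
  intro v hv
  apply hf v
  intro n
  exact hv ⟨f n, Submodule.subset_span ⟨n, rfl⟩⟩

theorem pi_surj {V : Type*} [AddCommGroup V] [Module ℝ V] {n : ℕ} (f : Fin n → V →ₗ[ℝ] ℝ)
    (hf : LinearIndependent ℝ f) : Function.Surjective (LinearMap.pi f) := by
  rw [← LinearMap.range_eq_top]
  by_contra hne
  obtain ⟨g, hg0, hg⟩ := Submodule.exists_le_ker_of_lt_top _ (lt_top_iff_ne_top.2 hne)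
  have hgx : ∀ x : Fin n → ℝ, g x = ∑ i, x i * g (Pi.single i 1) := by
    intro x
    conv_lhs => rw [pi_eq_sum_univ' x]
    rw [map_sum]
    refine Finset.sum_congr rfl (fun i _ => ?_)
    rw [map_smul, smul_eq_mul]
  have h1 : ∑ i, g (Pi.single i 1) • f i = 0 := by
    ext v
    have h2 : LinearMap.pi f v ∈ LinearMap.ker g := hg ⟨v, rfl⟩
    rw [LinearMap.mem_ker, hgx] at h2
    simp only [LinearMap.pi_apply] at h2
    rw [LinearMap.sum_apply]
    simp only [LinearMap.smul_apply, smul_eq_mul, LinearMap.zero_apply]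
    rw [← h2]
    exact Finset.sum_congr rfl (fun i _ => mul_comm _ _)
  have h3 := Fintype.linearIndependent_iff.1 hf (fun i => g (Pi.single i 1)) h1
  apply hg0
  ext1 i
  ext
  simpa using h3 i

end Pool.Agent.LibEN20
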