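import Pool.Agent.LibEN20.Defs

/-!
[EN20 C3] (SHORT/MEDIUM, only Mathlib) `vec_eq`: the vectors `t • (x - y)`, `0 ≤ t`, `x, y ∈ K`, form a submodule (for the sum: `t (x - y) + t' (x' - y') = (t + t') (convex combinations)`), which contains `K -ᵥ K`; `vectorSpan` is its span (`Submodule.span_le` / `span_induction`).
`interior_image`: `P '' K` is convex in `Fin n → ℝ`, its `vectorSpan` is the image of `vectorSpan ℝ K` (`LinearMap.vectorSpan_image..` / `AffineMap.vectorSpan_image_eq_submodule_map`), i.e. `⊤`, so `affineSpan = ⊤` (`AffineSubspace.affineSpan_eq_top_iff_vectorSpan_eq_top_of_nonempty`) and the interior is nonempty (`Convex.interior_nonempty_iff_affineSpan_eq_top`).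
-/

namespace Pool.Agent.LibEN20

variable {E : Type*} [AddCommGroup E] [Module ℝ E] {K : Set E}

theorem vec_eq (hc : Convex ℝ K) (hne : K.Nonempty) {v : E} (hv : v ∈ vectorSpan ℝ K) :
    ∃ t : ℝ, 0 ≤ t ∧ ∃ x ∈ K, ∃ y ∈ K, v = t • (x - y) := by
  classical
  let S : Submodule ℝ E :=
    { carrier := {v | ∃ t : ℝ, 0 ≤ t ∧ ∃ x ∈ K, ∃ y ∈ K, v = t • (x - y)}
      add_mem' := by
        rintro a b ⟨t, ht, x, hx, y, hy, rfl⟩ ⟨s, hs, x', hx', y', hy', rfl⟩
        rcases eq_or_lt_of_le (add_nonneg ht hs) with h0 | h0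
        · have ht0 : t = 0 := by linarith
          have hs0 : s = 0 := by linarith
          exact ⟨0, le_refl 0, x, hx, y, hy, by rw [ht0, hs0]; simp⟩
        · have hne : t + s ≠ 0 := ne_of_gt h0
          have h1 : 0 ≤ t / (t + s) := div_nonneg ht h0.le
          have h2 : 0 ≤ s / (t + s) := div_nonneg hs h0.le
          have h3 : t / (t + s) + s / (t + s) = 1 := by rw [← add_div]; exact div_self hne
          refine ⟨t + s, h0.le, (t / (t + s)) • x + (s / (t + s)) • x', hc hx hx' h1 h2 h3,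
            (t / (t + s)) • y + (s / (t + s)) • y', hc hy hy' h1 h2 h3, ?_⟩
          have e1 : (t + s) * (t / (t + s)) = t := by field_simp
          have e2 : (t + s) * (s / (t + s)) = s := by field_simp
          simp only [smul_sub, smul_add, smul_smul, e1, e2]
          abel
      zero_mem' := by
        obtain ⟨x, hx⟩ := hne
        exact ⟨0, le_refl 0, x, hx, x, hx, by simp⟩
      smul_mem' := by
        rintro c a ⟨t, ht, x, hx, y, hy, rfl⟩
        rcases le_total 0 c with h0 | h0
        · exact ⟨c * t, mul_nonneg h0 ht, x, hx, y, hy, by rw [smul_smul]⟩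
        · refine ⟨(-c) * t, mul_nonneg (by linarith) ht, y, hy, x, hx, ?_⟩
          rw [smul_smul, ← neg_sub y x, smul_neg, ← neg_smul]
          congr 1
          ring }
  have hle : vectorSpan ℝ K ≤ S := by
    rw [vectorSpan_def]
    refine Submodule.span_le.mpr ?_
    rintro _ ⟨x, hx, y, hy, rfl⟩
    exact ⟨1, zero_le_one, x, hx, y, hy, by simp⟩
  exact hle hv

theorem interior_image (hc : Convex ℝ K) (hne : K.Nonempty) {n : ℕ} (P : E →ₗ[ℝ] (Fin n → ℝ))
    (hP : ∀ z, ∃ v ∈ vectorSpan ℝ K, P v = z) : (interior (P '' K)).Nonempty := by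
  have hcP : Convex ℝ (P '' K) := hc.linear_image P
  rw [hcP.interior_nonempty_iff_affineSpan_eq_top,
    AffineSubspace.affineSpan_eq_top_iff_vectorSpan_eq_top_of_nonempty _ _ _ (hne.image P)]
  rw [eq_top_iff]
  intro z _
  obtain ⟨v, hv, rfl⟩ := hP z
  obtain ⟨t, ht, x, hx, y, hy, rfl⟩ := vec_eq hc hne hv
  rw [map_smul, map_sub]
  exact Submodule.smul_mem _ _
    (vsub_mem_vectorSpan ℝ (Set.mem_image_of_mem P hx) (Set.mem_image_of_mem P hy))

end Pool.Agent.LibEN20
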