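import Mathlib

/-!
LibEN20: definitions for Keller's theorem (helper20)
-/

namespace Pool.Agent.LibEN20

/-- the first `n` coordinates -/
def pr (n : ℕ) (z : ℕ → ℝ) : Fin n → ℝ := fun i => z i

/-- forget the last coordinate -/
def ini {n : ℕ} {α : Type*} (z : Fin (n + 1) → α) : Fin n → α := fun i => z i.castSucc

/-- the projection of `X` to the first `n` coordinates -/
def Xn (X : Set (ℕ → ℝ)) (n : ℕ) : Set (Fin n → ℝ) := pr n '' X

theorem ini_mem {X : Set (ℕ → ℝ)} {n : ℕ} {z : Fin (n + 1) → ℝ} (h : z ∈ Xn X (n + 1)) : ini z ∈ Xn X n := by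
  obtain ⟨x, hx, rfl⟩ := h
  exact ⟨x, hx, rfl⟩

/-- the projection `X_(n+1) → X_n` -/
def iniX {X : Set (ℕ → ℝ)} {n : ℕ} (z : Xn X (n + 1)) : Xn X n := ⟨ini z.1, ini_mem z.2⟩

/-- a homeomorphism of the cube with `X_n` and a common modulus for it and its inverse -/
structure St (X : Set (ℕ → ℝ)) (n : ℕ) where
  /-- the homeomorphism -/
  h : (Fin n → unitInterval) ≃ₜ Xn X n
  /-- the modulus -/
  β : ℝ
  pos : 0 < β
  le : β ≤ (1 / 2) ^ n
  m1 : ∀ a b, dist a b ≤ β → dist (h a) (h b) ≤ (1 / 2) ^ n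
  m2 : ∀ a b, dist a b ≤ β → dist (h.symm a) (h.symm b) ≤ (1 / 2) ^ n

/-- compatibility of consecutive stages -/
structure Step {X : Set (ℕ → ℝ)} {n : ℕ} (s : St X n) (s' : St X (n + 1)) : Prop where
  half : s'.β ≤ s.β / 2
  c1 : ∀ u, dist (ini (s'.h u).1) (s.h (ini u)).1 ≤ s.β / 2
  c2 : ∀ z, dist (ini (s'.h.symm z)) (s.h.symm (iniX z)) ≤ s.β / 2

end Pool.Agent.LibEN20
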