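import Pool.Agent.LibEN20.C1
import Pool.Agent.LibEN20.C2
import Pool.Agent.LibEN20.C3
import Pool.Agent.LibEN20.DefsK

/-!
[EN20 C4] (MEDIUM) Coordinates, page (5). `exists_coord`: `φ n` from `countable_sep`. Let `V = vectorSpan ℝ K` (infinite-dimensional), `f n = (φ n).domRestrict V`. If `v ∈ V` and all `f n v = 0` then `v = t (x - y)` (`vec_eq`) and (`t = 0` or) `φ n x = φ n y` for all `n`, so `v = 0`. `not_fin`, `exists_indep`: `e`. Put
`Ψ : E →ₗ[ℝ] (ℕ → ℝ) := LinearMap.pi fun n => φ (e n)`, `X = Ψ '' K`: compact (`continuousOn_pi`), convex. `Ψ` is injective on `K`: if `Ψ x = Ψ y` then all elements of `span (range f)` vanish at `x - y ∈ V`. `K ≃ₜ X`: continuous bijection from a compact space to a Hausdorff space.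
Interior: `pr n '' X = P '' K` with `P = LinearMap.pi fun i : Fin n => φ (e i)`, surjective on `V` by `pi_surj` (the `f (e i)`, `i < n`, are independent), `interior_image`. `K` is nonempty as `V` is infinite-dimensional.
`exists_embed`: without the condition on the dimension (`Ψ = LinearMap.pi φ`).
-/

namespace Pool.Agent.LibEN20

variable {E : Type*} [NormedAddCommGroup E] [Module ℝ E] {K : Set E}

theorem exists_embed (hK : IsCompact K)
    (h : ∀ x ∈ K, ∀ y ∈ K, x ≠ y → ∃ φ : E →ₗ[ℝ] ℝ, ContinuousOn φ K ∧ φ x ≠ φ y) :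
    ∃ Ψ : E →ₗ[ℝ] (ℕ → ℝ), ContinuousOn Ψ K ∧ Set.InjOn Ψ K := by
  obtain ⟨φ, hφ, hs⟩ := countable_sep hK h
  refine ⟨LinearMap.pi φ, ?_, ?_⟩
  · rw [continuousOn_pi]
    intro n
    exact hφ n
  · intro x hx y hy hxy
    apply hs x hx y hy
    intro n
    have := congrFun hxy n
    simpa using this

theorem exists_coord (hK : IsCompact K) (hc : Convex ℝ K) (hinf : ¬ FiniteDimensional ℝ (vectorSpan ℝ K))
    (h : ∀ x ∈ K, ∀ y ∈ K, x ≠ y → ∃ φ : E →ₗ[ℝ] ℝ, ContinuousOn φ K ∧ φ x ≠ φ y) :
    ∃ X : Set (ℕ → ℝ), IsCompact X ∧ Convex ℝ X ∧ (∀ n, (interior (Xn X n)).Nonempty) ∧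
      Nonempty (K ≃ₜ X) := by
  obtain ⟨φ, hφ, hs⟩ := countable_sep hK h
  have hne : K.Nonempty := by
    by_contra hK0
    rw [Set.not_nonempty_iff_eq_empty] at hK0
    apply hinf
    rw [hK0, vectorSpan_empty]
    infer_instance
  have hf : ∀ v : vectorSpan ℝ K, (∀ n, ((φ n).domRestrict (vectorSpan ℝ K)) v = 0) → v = 0 := by
    rintro ⟨v, hv⟩ h0
    obtain ⟨t, ht, x, hx, y, hy, hvt⟩ := vec_eq hc hne hv
    apply Subtype.ext
    change v = 0
    by_cases ht0 : t = 0
    · rw [hvt, ht0, zero_smul]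
    · have hxy : x = y := by
        apply hs x hx y hy
        intro n
        have h1 : φ n v = 0 := h0 n
        rw [hvt, map_smul, map_sub, smul_eq_mul] at h1
        rcases mul_eq_zero.1 h1 with h2 | h2
        · exact absurd h2 ht0
        · linarith
      rw [hvt, hxy, sub_self, smul_zero]
  obtain ⟨e, -, hli, hsp⟩ := exists_indep _ (not_fin hinf _ hf)
  set Ψ : E →ₗ[ℝ] (ℕ → ℝ) := LinearMap.pi fun n => φ (e n) with hΨ
  have hcont : ContinuousOn Ψ K := by
    rw [continuousOn_pi]
    intro n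
    exact hφ (e n)
  have hinj : Set.InjOn Ψ K := by
    intro x hx y hy hxy
    have h1 : ∀ n, φ (e n) x = φ (e n) y := fun n => by
      have := congrFun hxy n
      simpa [hΨ] using this
    have hv : x - y ∈ vectorSpan ℝ K := vsub_mem_vectorSpan ℝ hx hy
    have h2 : ∀ w ∈ Submodule.span ℝ (Set.range fun n => (φ n).domRestrict (vectorSpan ℝ K)),
        w ⟨x - y, hv⟩ = 0 := by
      intro w hw
      rw [hsp] at hw
      induction hw using Submodule.span_induction with
      | mem w hw =>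
        obtain ⟨n, rfl⟩ := hw
        change φ (e n) (x - y) = 0
        rw [map_sub, h1 n, sub_self]
      | zero => rfl
      | add a b _ _ ha hb => rw [LinearMap.add_apply, ha, hb, add_zero]
      | smul c a _ ha => rw [LinearMap.smul_apply, ha, smul_zero]
    apply hs x hx y hy
    intro n
    have h3 := h2 _ (Submodule.subset_span ⟨n, rfl⟩)
    have h4 : φ n (x - y) = 0 := h3
    rw [map_sub] at h4
    linarith
  refine ⟨Ψ '' K, hK.image_of_continuousOn hcont, hc.linear_image Ψ, ?_, ?_⟩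
  · intro n
    have h1 : Xn (Ψ '' K) n = (LinearMap.pi fun i : Fin n => φ (e i)) '' K := by
      unfold Xn
      rw [Set.image_image]
      rfl
    rw [h1]
    apply interior_image hc hne
    intro z
    obtain ⟨v, hv⟩ := pi_surj (fun i : Fin n => (φ (e i)).domRestrict (vectorSpan ℝ K))
      (hli.comp (fun i : Fin n => (i : ℕ)) Fin.val_injective) z
    refine ⟨v.1, v.2, ?_⟩
    rw [← hv]
    rfl
  · haveI : CompactSpace K := isCompact_iff_compactSpace.1 hK
    have hc2 : Continuous (Equiv.Set.imageOfInjOn Ψ K hinj) := by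
      apply Continuous.subtype_mk
      exact continuousOn_iff_continuous_restrict.1 hcont
    exact ⟨Continuous.homeoOfEquivCompactToT2 hc2⟩

end Pool.Agent.LibEN20
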