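import Mathlib

/-!
# LibEN20: metric entropy and local convexity of compact convex sets (helper20)
Page: PAGE_7cd4a5_ENTROPY_helper20.md
-/

namespace Pool.Agent.LibEN20

/-- the norm of the group `E` is an F-norm (used together with `ContinuousSMul ℝ E`) -/
def IsFNorm (E : Type*) [NormedAddCommGroup E] [Module ℝ E] : Prop :=
  ∀ (t : ℝ) (x : E), |t| ≤ 1 → ‖t • x‖ ≤ ‖x‖

section

variable {E : Type*} [NormedAddCommGroup E]

/-- `A` is covered by at most `2 ^ k` closed balls of radius `r` -/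
def Cov (A : Set E) (k : ℕ) (r : ℝ) : Prop :=
  ∃ s : Finset E, s.card ≤ 2 ^ k ∧ ∀ x ∈ A, ∃ y ∈ s, ‖x - y‖ ≤ r

/-- the dyadic entropy numbers of `A` -/
noncomputable def ent (A : Set E) (k : ℕ) : ℝ := sInf {r : ℝ | 0 ≤ r ∧ Cov A k r}

end

/-- the support of a weight -/
noncomputable def supp {ι : Type*} [Fintype ι] (c : ι → ℝ) : Finset ι := by
  classical exact Finset.univ.filter fun i => c i ≠ 0

/-- `c` is a probability weight -/
structure IsProb {ι : Type*} [Fintype ι] (c : ι → ℝ) : Prop where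
  nonneg : ∀ i, 0 ≤ c i
  sum : ∑ i, c i = 1

theorem mem_supp {ι : Type*} [Fintype ι] {c : ι → ℝ} {i : ι} : i ∈ supp c ↔ c i ≠ 0 := by
  classical
  simp [supp]

/-- sign -/
def sg (b : Bool) : ℝ := if b then 1 else -1

/-- the weight of the choice `s`: for `s i = true` the weight of `a i` is moved to `b i`, for `s i = false` the same amount is
moved from `b i` to `a i` -/
noncomputable def mv {ι : Type*} [DecidableEq ι] {N : ℕ} (c : ι → ℝ) (a b : Fin N → ι) (s : Fin N → ℝ) (j : ι) : ℝ :=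
  c j + ∑ i, s i * c (a i) * ((if j = b i then 1 else 0) - (if j = a i then 1 else 0))

/-- pairs -/
structure Pairs {ι : Type*} [Fintype ι] {N : ℕ} (c : ι → ℝ) (a b : Fin N → ι) : Prop where
  inja : Function.Injective a
  injb : Function.Injective b
  ne : ∀ i j, a i ≠ b j
  sa : ∀ i, c (a i) ≠ 0
  sb : ∀ i, c (b i) ≠ 0
  le : ∀ i, c (a i) ≤ c (b i)

/-- local convexity at `0` of the set `D` -/
def LC0 {E : Type*} [NormedAddCommGroup E] [Module ℝ E] (D : Set E) : Prop :=
  ∀ η > 0, ∃ ε > 0, convexHull ℝ (D ∩ Metric.closedBall 0 ε) ⊆ Metric.closedBall 0 η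

end Pool.Agent.LibEN20
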