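import Pool.Agent.LibEN20.Defs

/-!
[EN20 E0] (SHORT/MEDIUM, only Mathlib) Two counting lemmas.
`ball_card`: number `b` of the `s'` which differ from `s` in at most `r` places satisfies `b * 4 ^ N ≤ 4 ^ r * 5 ^ N`. Proof: the map `s' ↦ {i : s i ≠ s' i}` is injective (Bool!), so
`b ≤ #{t ⊆ univ : #t ≤ r}`; and `∑_{t} 4 ^ (N - #t) = 5 ^ N` (`Finset.sum_pow_mul_eq_add_pow` or `Finset.prod_add` / `Finset.sum_powerset..` with `1 ^ #t * 4 ^ (N - #t)`), every `t` with `#t ≤ r` has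
`4 ^ (N - #t) * 4 ^ r ≥ 4 ^ N`. So `b * 4 ^ N ≤ ∑_{#t ≤ r} 4 ^ (N - #t) * 4 ^ r ≤ 5 ^ N * 4 ^ r`.
`far`: a set `S` with `#S * 2 ^ k ≥ 2 ^ N`, `4 k ≤ N`, `8 r ≤ N`, `0 < N`, has two elements which differ in more than `r` places: otherwise, `S ≠ ∅` and `s ∈ S`, `S` is inside the ball of `ball_card` around `s`, so
`2 ^ N * 4 ^ N ≤ #S * 2 ^ k * 4 ^ N ≤ 4 ^ r * 5 ^ N * 2 ^ k`; take the 8th power: `8 ^ (8 N) ≤ 4 ^ (8 r) * 5 ^ (8 N) * 2 ^ (8 k) ≤ 4 ^ N * 5 ^ (8 N) * 2 ^ (2 N)`, i.e. `(8 ^ 8) ^ N ≤ (16 * 5 ^ 8) ^ N`, but `16 * 5 ^ 8 = 6250000 < 8 ^ 8 = 16777216`.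
-/

namespace Pool.Agent.LibEN20

theorem ball_card {N : ℕ} (s : Fin N → Bool) (r : ℕ) :
    (Finset.univ.filter fun s' : Fin N → Bool => (Finset.univ.filter fun i => s i ≠ s' i).card ≤ r).card * 4 ^ N ≤
      4 ^ r * 5 ^ N := by
  classical
  have h1 : (Finset.univ.filter fun s' : Fin N → Bool =>
      (Finset.univ.filter fun i => s i ≠ s' i).card ≤ r).card ≤
      (Finset.univ.filter fun t : Finset (Fin N) => t.card ≤ r).card := by
    apply Finset.card_le_card_of_injOn (fun s' => Finset.univ.filter fun i => s i ≠ s' i)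
    · intro s' hs'
      simp only [Finset.coe_filter, Finset.mem_univ, true_and, Set.mem_setOf_eq] at hs' ⊢
      exact hs'
    · intro u _ w _ huw
      funext i
      have h2 : (i ∈ Finset.univ.filter fun i => s i ≠ u i) ↔
          (i ∈ Finset.univ.filter fun i => s i ≠ w i) := by
        have huw' : (Finset.univ.filter fun i => s i ≠ u i) =
            (Finset.univ.filter fun i => s i ≠ w i) := huw
        rw [huw']
      simp only [Finset.mem_filter, Finset.mem_univ, true_and] at h2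
      revert h2
      cases s i <;> cases u i <;> cases w i <;> simp
  have h2 := Fintype.sum_pow_mul_eq_add_pow (Fin N) (1 : ℕ) 4
  rw [Fintype.card_fin] at h2
  calc _ ≤ (Finset.univ.filter fun t : Finset (Fin N) => t.card ≤ r).card * 4 ^ N :=
        Nat.mul_le_mul_right _ h1
    _ = ∑ t ∈ Finset.univ.filter (fun t : Finset (Fin N) => t.card ≤ r), 4 ^ N := by
        rw [Finset.sum_const, smul_eq_mul]
    _ ≤ ∑ t ∈ Finset.univ.filter (fun t : Finset (Fin N) => t.card ≤ r),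
        (1 ^ t.card * 4 ^ (N - t.card)) * 4 ^ r := by
        apply Finset.sum_le_sum
        intro t ht
        rw [Finset.mem_filter] at ht
        rw [one_pow, one_mul, ← pow_add]
        have ht2 := ht.2
        exact Nat.pow_le_pow_right (by norm_num) (by omega)
    _ ≤ ∑ t : Finset (Fin N), (1 ^ t.card * 4 ^ (N - t.card)) * 4 ^ r :=
        Finset.sum_le_sum_of_subset (Finset.filter_subset _ _)
    _ = 4 ^ r * 5 ^ N := by
        rw [← Finset.sum_mul, h2, mul_comm]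

theorem far {N k r : ℕ} (hN : 0 < N) (hk : 4 * k ≤ N) (hr : 8 * r ≤ N) (S : Finset (Fin N → Bool))
    (hS : 2 ^ N ≤ S.card * 2 ^ k) :
    ∃ s ∈ S, ∃ s' ∈ S, r < (Finset.univ.filter fun i => s i ≠ s' i).card := by
  by_contra hcon
  push Not at hcon
  have hne : S.Nonempty := by
    rw [Finset.nonempty_iff_ne_empty]
    rintro rfl
    rw [Finset.card_empty, zero_mul] at hS
    have : 0 < 2 ^ N := by positivity
    omega
  obtain ⟨s, hs⟩ := hne
  have h1 : S.card ≤ (Finset.univ.filter fun s' : Fin N → Bool =>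
      (Finset.univ.filter fun i => s i ≠ s' i).card ≤ r).card := by
    apply Finset.card_le_card
    intro s' hs'
    rw [Finset.mem_filter]
    exact ⟨Finset.mem_univ _, hcon s hs s' hs'⟩
  have h2 := ball_card s r
  have h3 : 8 ^ N ≤ 4 ^ r * 5 ^ N * 2 ^ k := by
    calc 8 ^ N = 2 ^ N * 4 ^ N := by rw [← mul_pow]; norm_num
      _ ≤ (S.card * 2 ^ k) * 4 ^ N := Nat.mul_le_mul_right _ hS
      _ = (S.card * 4 ^ N) * 2 ^ k := by ring
      _ ≤ (4 ^ r * 5 ^ N) * 2 ^ k :=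
        Nat.mul_le_mul_right _ ((Nat.mul_le_mul_right _ h1).trans h2)
  have h4 : (8 ^ N) ^ 8 ≤ (4 ^ r * 5 ^ N * 2 ^ k) ^ 8 := Nat.pow_le_pow_left h3 8
  have h5 : (8 ^ N) ^ 8 = 16777216 ^ N := by
    rw [← pow_mul, mul_comm, pow_mul]
    norm_num
  have h6 : (4 ^ r * 5 ^ N * 2 ^ k) ^ 8 ≤ 6250000 ^ N := by
    calc (4 ^ r * 5 ^ N * 2 ^ k) ^ 8 = 4 ^ (8 * r) * 5 ^ (8 * N) * 2 ^ (8 * k) := by
          rw [mul_pow, mul_pow, ← pow_mul, ← pow_mul, ← pow_mul, mul_comm r 8, mul_comm N 8,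
            mul_comm k 8]
      _ ≤ 4 ^ N * 5 ^ (8 * N) * 2 ^ (2 * N) := by
          apply Nat.mul_le_mul
          · apply Nat.mul_le_mul_right
            exact Nat.pow_le_pow_right (by norm_num) hr
          · exact Nat.pow_le_pow_right (by norm_num) (by omega)
      _ = 6250000 ^ N := by
          rw [pow_mul, pow_mul, ← mul_pow, ← mul_pow]
          norm_num
  have h7 : (6250000 : ℕ) ^ N < 16777216 ^ N := Nat.pow_lt_pow_left (by norm_num) (by omega)
  rw [h5] at h4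
  omega

end Pool.Agent.LibEN20
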