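import Pool.Agent.LibEN20.Defs

/-!
[EN20 E1] (SHORT/MEDIUM, only Mathlib) `pairing`: the support of `c`, with `n` elements, contains `N = n / 2` disjoint pairs `a i, b i`, ordered such that `c (a i) ≤ c (b i)`.
Proof: `e : Fin n ≃ supp c` (`Finset.equivFin`), first put `a' i = e (2 i)`, `b' i = e (2 i + 1)` for `i < n / 2` (all different), then swap inside every pair where `c (a' i) > c (b' i)`:
`a i = if c (a' i) ≤ c (b' i) then a' i else b' i` etc. (injectivity: in all cases the indices `2 i`, `2 i + 1` and `2 j`, `2 j + 1` are different for `i ≠ j`).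
-/

namespace Pool.Agent.LibEN20

theorem pairing {ι : Type*} [Fintype ι] (c : ι → ℝ) :
    ∃ a b : Fin ((supp c).card / 2) → ι, Pairs c a b := by
  classical
  have e : Fin (supp c).card ≃ supp c := (supp c).equivFin.symm
  have h2 : ∀ i : Fin ((supp c).card / 2), 2 * (i : ℕ) + 1 < (supp c).card := fun i => by
    have := i.2
    omega
  let p : Fin ((supp c).card / 2) → Fin (supp c).card := fun i => ⟨2 * (i : ℕ), by
    have := h2 i
    omega⟩
  let q : Fin ((supp c).card / 2) → Fin (supp c).card := fun i => ⟨2 * (i : ℕ) + 1, h2 i⟩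
  let P : Fin ((supp c).card / 2) → Prop := fun i => c (e (p i)) ≤ c (e (q i))
  let ia : Fin ((supp c).card / 2) → Fin (supp c).card := fun i => if P i then p i else q i
  let ib : Fin ((supp c).card / 2) → Fin (supp c).card := fun i => if P i then q i else p i
  have hia : ∀ i, (ia i : ℕ) = if P i then 2 * (i : ℕ) else 2 * (i : ℕ) + 1 := by
    intro i
    by_cases h : P i
    · simp only [ia, if_pos h, p]
    · simp only [ia, if_neg h, q]
  have hib : ∀ i, (ib i : ℕ) = if P i then 2 * (i : ℕ) + 1 else 2 * (i : ℕ) := by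
    intro i
    by_cases h : P i
    · simp only [ib, if_pos h, q]
    · simp only [ib, if_neg h, p]
  have hinj : ∀ u v : Fin (supp c).card, (e u : ι) = e v → u = v := fun u v h =>
    e.injective (Subtype.ext h)
  refine ⟨fun i => e (ia i), fun i => e (ib i), ?_, ?_, ?_, ?_, ?_, ?_⟩
  · intro i j hij
    have h1 := congrArg Fin.val (hinj _ _ hij)
    rw [hia, hia] at h1
    apply Fin.ext
    split_ifs at h1 <;> omega
  · intro i j hij
    have h1 := congrArg Fin.val (hinj _ _ hij)
    rw [hib, hib] at h1
    apply Fin.ext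
    split_ifs at h1 <;> omega
  · intro i j hij
    have h1 := congrArg Fin.val (hinj _ _ hij)
    rw [hia, hib] at h1
    by_cases hi : P i <;> by_cases hj : P j
    · rw [if_pos hi, if_pos hj] at h1
      omega
    · rw [if_pos hi, if_neg hj] at h1
      have h3 : i = j := Fin.ext (by omega)
      exact hj (h3 ▸ hi)
    · rw [if_neg hi, if_pos hj] at h1
      have h3 : i = j := Fin.ext (by omega)
      exact hi (h3 ▸ hj)
    · rw [if_neg hi, if_neg hj] at h1
      omega
  · intro i
    exact mem_supp.1 (e (ia i)).2
  · intro i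
    exact mem_supp.1 (e (ib i)).2
  · intro i
    show c (e (ia i)) ≤ c (e (ib i))
    by_cases h : P i
    · simp only [ia, ib, if_pos h]
      exact h
    · simp only [ia, ib, if_neg h]
      exact le_of_lt (not_le.1 h)

end Pool.Agent.LibEN20
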