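import Pool.Agent.LibEN20.Defs

/-!
[EN20 E2] (MEDIUM, only Mathlib) The weights `mv c a b s`, `s : Fin N → [-1, 1]` (`a i`, `b i` all different, `0 ≤ c (a i) ≤ c (b i)`).
`mv_a`: weight of `a i` is `c (a i) - s i * c (a i)`; `mv_b`: weight of `b i` is `c (b i) + s i * c (a i)`; `mv_o`: all other weights are unchanged (only one or no summand is nonzero: `Finset.sum_eq_single`).
`mv_prob`: nonnegative (three cases) and sum `1` (`Finset.sum_comm`; each summand `∑_j ((if j = b i then 1 else 0) - (if j = a i then 1 else 0)) = 0`).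
`mv_sum`: `∑ j, mv c a b s j • f j = ∑ j, c j • f j + ∑ i, (s i * c (a i)) • (f (b i) - f (a i))`.
`mv_supp`: if `s i = 1` for all `i` in `P` then the support of `mv c a b s` is inside `supp c` minus `{a i : i ∈ P}`, so it has at most `#supp c - #P` elements.
-/

namespace Pool.Agent.LibEN20

variable {ι : Type*} [Fintype ι] [DecidableEq ι] {N : ℕ} {c : ι → ℝ} {a b : Fin N → ι}

theorem mv_a (h : Pairs c a b) (s : Fin N → ℝ) (i : Fin N) : mv c a b s (a i) = c (a i) - s i * c (a i) := by
  unfold mv
  rw [Finset.sum_eq_single i]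
  · rw [if_neg (h.ne i i), if_pos rfl]
    ring
  · intro i' _ hi
    rw [if_neg (h.ne i i'), if_neg (fun e => hi (h.inja e).symm)]
    ring
  · intro hi
    exact absurd (Finset.mem_univ i) hi

theorem mv_b (h : Pairs c a b) (s : Fin N → ℝ) (i : Fin N) : mv c a b s (b i) = c (b i) + s i * c (a i) := by
  unfold mv
  rw [Finset.sum_eq_single i]
  · rw [if_pos rfl, if_neg (fun e => h.ne i i e.symm)]
    ring
  · intro i' _ hi
    rw [if_neg (fun e => hi (h.injb e).symm), if_neg (fun e => h.ne i' i e.symm)]
    ring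
  · intro hi
    exact absurd (Finset.mem_univ i) hi

theorem mv_o (s : Fin N → ℝ) (j : ι) (ha : ∀ i, j ≠ a i) (hb : ∀ i, j ≠ b i) : mv c a b s j = c j := by
  unfold mv
  rw [Finset.sum_eq_zero]
  · ring
  · intro i _
    rw [if_neg (hb i), if_neg (ha i)]
    ring

theorem mv_prob (h : Pairs c a b) (hc : IsProb c) (s : Fin N → ℝ) (hs : ∀ i, |s i| ≤ 1) : IsProb (mv c a b s) := by
  constructor
  · intro j
    by_cases ha : ∃ i, j = a i
    · obtain ⟨i, rfl⟩ := ha
      rw [mv_a h]
      have h1 := (abs_le.1 (hs i)).2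
      have h2 := hc.nonneg (a i)
      nlinarith
    · by_cases hb : ∃ i, j = b i
      · obtain ⟨i, rfl⟩ := hb
        rw [mv_b h]
        have h1 := (abs_le.1 (hs i)).1
        have h2 := hc.nonneg (a i)
        have h3 := h.le i
        nlinarith
      · rw [mv_o s j (fun i e => ha ⟨i, e⟩) (fun i e => hb ⟨i, e⟩)]
        exact hc.nonneg j
  · unfold mv
    rw [Finset.sum_add_distrib, hc.sum, Finset.sum_comm, Finset.sum_eq_zero]
    · ring
    · intro i _
      rw [← Finset.mul_sum, Finset.sum_sub_distrib, Finset.sum_ite_eq', Finset.sum_ite_eq',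
        if_pos (Finset.mem_univ _), if_pos (Finset.mem_univ _)]
      ring

theorem mv_sum {E : Type*} [AddCommGroup E] [Module ℝ E] (f : ι → E) (s : Fin N → ℝ) :
    ∑ j, mv c a b s j • f j = ∑ j, c j • f j + ∑ i, (s i * c (a i)) • (f (b i) - f (a i)) := by
  unfold mv
  simp only [add_smul, Finset.sum_add_distrib, Finset.sum_smul]
  congr 1
  rw [Finset.sum_comm]
  refine Finset.sum_congr rfl fun i _ => ?_
  simp only [mul_smul, ← Finset.smul_sum, sub_smul, Finset.sum_sub_distrib, ite_smul, one_smul,
    zero_smul, Finset.sum_ite_eq', Finset.mem_univ, if_true]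

theorem mv_supp (h : Pairs c a b) (s : Fin N → ℝ) (P : Finset (Fin N)) (hP : ∀ i ∈ P, s i = 1) :
    (supp (mv c a b s)).card + P.card ≤ (supp c).card := by
  classical
  have hsub : supp (mv c a b s) ⊆ supp c \ P.image a := by
    intro j hj
    rw [mem_supp] at hj
    rw [Finset.mem_sdiff, mem_supp]
    constructor
    · intro h0
      apply hj
      rw [mv_o s j, h0]
      · rintro i rfl
        exact h.sa i h0
      · rintro i rfl
        exact h.sb i h0
    · intro hi
      rw [Finset.mem_image] at hi
      obtain ⟨i, hiP, rfl⟩ := hi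
      apply hj
      rw [mv_a h, hP i hiP]
      ring
  have himg : P.image a ⊆ supp c := by
    intro j hj
    rw [Finset.mem_image] at hj
    obtain ⟨i, _, rfl⟩ := hj
    exact mem_supp.2 (h.sa i)
  have h1 := Finset.card_le_card hsub
  rw [Finset.card_sdiff_of_subset himg, Finset.card_image_of_injective P h.inja] at h1
  have h2 := Finset.card_le_card himg
  rw [Finset.card_image_of_injective P h.inja] at h2
  omega

end Pool.Agent.LibEN20
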