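import Pool.Agent.LibEN20.E0
import Pool.Agent.LibEN20.E1
import Pool.Agent.LibEN20.E2

/-!
[EN20 E3] (MEDIUM) THE HALVING STEP, page (1). `A` convex, covered by `2 ^ k` balls of radius `e`, `n = #supp c ≥ 2`, `8 k ≤ n`.
Proof: `N = n / 2 ≥ 1`, `4 k ≤ N`; pairs `a, b` from `pairing`. For `σ : Fin N → Bool` put `y σ = ∑ j, mv c a b (sg ∘ σ) j • f j ∈ A` (`mv_prob`, `Convex.sum_mem`). Choose for every `σ` a centre `y' ∈ s` with `‖y σ - y'‖ ≤ e`. Pigeonhole
(`Finset.exists_le_card_fiber_of_mul_le_card_of_maps_to` or by contradiction with `Finset.card_eq_sum_card_fiberwise`): some centre belongs to a set `S` of `σ` with `2 ^ N ≤ #S * 2 ^ k` (note `s ≠ ∅`). `far` with `r = N / 8` gives `σ, σ' ∈ S` which differ in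
a set `D` with `#D > N / 8`. By symmetry (exchange `σ, σ'`) the set `P = {i ∈ D : σ i = true}` (then `σ' i = false`) has `2 #P ≥ #D`. Put `s i = (sg (σ i) - sg (σ' i)) / 2` (`= 1` on `P`, values in `{-1, 0, 1}`), `c' = mv c a b s`.
`mv_prob`, `mv_supp`: `#supp c' + #P ≤ n` with `2 #P ≥ N / 8 + 1`, so `32 #P ≥ n`. `mv_sum`: `∑ c' f - ∑ c f = (1/2) (y σ - y σ')`, norm `≤ ‖y σ - y σ'‖ ≤ 2 e` (`IsFNorm` with `t = 1/2`).
-/

namespace Pool.Agent.LibEN20

private theorem E3_sg_le (b : Bool) : |sg b| ≤ 1 := by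
  cases b <;> simp [sg]

private theorem E3_half_le (b b' : Bool) : |(sg b - sg b') / 2| ≤ 1 := by
  rw [abs_div, abs_two, div_le_one (by norm_num : (0 : ℝ) < 2)]
  have h := abs_sub (sg b) (sg b')
  have h1 := E3_sg_le b
  have h2 := E3_sg_le b'
  linarith

private theorem E3_core {E : Type*} [NormedAddCommGroup E] [Module ℝ E] (hF : IsFNorm E)
    {ι : Type*} [Fintype ι] [DecidableEq ι] (f : ι → E) (c : ι → ℝ) (hp : IsProb c) {n : ℕ} (hn : (supp c).card = n)
    {a b : Fin (n / 2) → ι} (hab : Pairs c a b) (σ σ' : Fin (n / 2) → Bool) {z : E} {e : ℝ}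
    (h1 : ‖∑ j, mv c a b (fun i => sg (σ i)) j • f j - z‖ ≤ e)
    (h2 : ‖∑ j, mv c a b (fun i => sg (σ' i)) j • f j - z‖ ≤ e)
    (h3 : n / 2 / 8 < 2 * (Finset.univ.filter fun i => σ i = true ∧ σ' i = false).card) :
    ∃ c' : ι → ℝ, IsProb c' ∧ 32 * (supp c').card ≤ 31 * n ∧
      ‖∑ i, c i • f i - ∑ i, c' i • f i‖ ≤ 2 * e := by
  refine ⟨mv c a b (fun i => (sg (σ i) - sg (σ' i)) / 2), mv_prob hab hp _ (fun i => E3_half_le _ _), ?_, ?_⟩
  · have h4 := mv_supp hab (fun i => (sg (σ i) - sg (σ' i)) / 2)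
      (Finset.univ.filter fun i => σ i = true ∧ σ' i = false) (by
        intro i hi
        rw [Finset.mem_filter] at hi
        show (sg (σ i) - sg (σ' i)) / 2 = 1
        rw [hi.2.1, hi.2.2]
        norm_num [sg])
    rw [hn] at h4
    omega
  · have e1 := mv_sum (c := c) (a := a) (b := b) f (fun i => (sg (σ i) - sg (σ' i)) / 2)
    have e2 := mv_sum (c := c) (a := a) (b := b) f (fun i => sg (σ i))
    have e3 := mv_sum (c := c) (a := a) (b := b) f (fun i => sg (σ' i))
    have e4 : ∑ i, c i • f i - ∑ i, mv c a b (fun i => (sg (σ i) - sg (σ' i)) / 2) i • f i =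
        (-(1 / 2) : ℝ) • (∑ j, mv c a b (fun i => sg (σ i)) j • f j -
          ∑ j, mv c a b (fun i => sg (σ' i)) j • f j) := by
      rw [e1, e2, e3, add_sub_add_left_eq_sub, ← Finset.sum_sub_distrib, Finset.smul_sum, sub_add_cancel_left,
        ← Finset.sum_neg_distrib]
      refine Finset.sum_congr rfl fun i _ => ?_
      rw [← sub_smul, smul_smul, ← neg_smul]
      congr 1
      ring
    rw [e4]
    refine (hF _ _ (by norm_num)).trans ?_
    have h5 : ∑ j, mv c a b (fun i => sg (σ i)) j • f j - ∑ j, mv c a b (fun i => sg (σ' i)) j • f j =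
        (∑ j, mv c a b (fun i => sg (σ i)) j • f j - z) -
          (∑ j, mv c a b (fun i => sg (σ' i)) j • f j - z) := by abel
    rw [h5]
    refine (norm_sub_le _ _).trans ?_
    linarith

theorem step {E : Type*} [NormedAddCommGroup E] [Module ℝ E] (hF : IsFNorm E) {A : Set E} (hA : Convex ℝ A)
    {k : ℕ} {e : ℝ} (hc : Cov A k e) {ι : Type*} [Fintype ι] (f : ι → E) (hf : ∀ i, f i ∈ A) (c : ι → ℝ)
    (hp : IsProb c) (h2 : 2 ≤ (supp c).card) (hk : 8 * k ≤ (supp c).card) :
    ∃ c' : ι → ℝ, IsProb c' ∧ 32 * (supp c').card ≤ 31 * (supp c).card ∧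
      ‖∑ i, c i • f i - ∑ i, c' i • f i‖ ≤ 2 * e := by
  classical
  obtain ⟨a, b, hab⟩ := pairing c
  obtain ⟨s, hs, hcov⟩ := hc
  have hy : ∀ σ : Fin ((supp c).card / 2) → Bool, ∑ j, mv c a b (fun i => sg (σ i)) j • f j ∈ A := by
    intro σ
    have h1 := mv_prob hab hp (fun i => sg (σ i)) (fun i => E3_sg_le _)
    exact hA.sum_mem (fun j _ => h1.nonneg j) h1.sum (fun j _ => hf j)
  choose g hg hge using fun σ : Fin ((supp c).card / 2) → Bool => hcov _ (hy σ)
  have hsne : s.Nonempty := ⟨_, hg (fun _ => true)⟩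
  have hkN : k ≤ (supp c).card / 2 := by omega
  have hcard : s.card * 2 ^ ((supp c).card / 2 - k) ≤
      (Finset.univ : Finset (Fin ((supp c).card / 2) → Bool)).card := by
    rw [Finset.card_univ, Fintype.card_fun, Fintype.card_bool, Fintype.card_fin]
    refine (Nat.mul_le_mul_right _ hs).trans ?_
    rw [← pow_add, Nat.add_sub_cancel' hkN]
  obtain ⟨z, hz, hzc⟩ := Finset.exists_le_card_fiber_of_mul_le_card_of_maps_to
    (s := (Finset.univ : Finset (Fin ((supp c).card / 2) → Bool))) (t := s) (f := g) (fun σ _ => hg σ) hsne hcard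
  have hS : 2 ^ ((supp c).card / 2) ≤
      (Finset.univ.filter fun σ : Fin ((supp c).card / 2) → Bool => g σ = z).card * 2 ^ k := by
    refine le_trans ?_ (Nat.mul_le_mul_right _ hzc)
    rw [← pow_add, Nat.sub_add_cancel hkN]
  obtain ⟨σ, hσ, σ', hσ', hfar⟩ := far (N := (supp c).card / 2) (k := k) (r := (supp c).card / 2 / 8) (by omega)
    (by omega) (by omega) _ hS
  rw [Finset.mem_filter] at hσ hσ'
  have n1 := hge σ
  have n2 := hge σ'
  rw [hσ.2] at n1
  rw [hσ'.2] at n2
  have hsum : (Finset.univ.filter fun i => σ i ≠ σ' i).card ≤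
      (Finset.univ.filter fun i => σ i = true ∧ σ' i = false).card +
        (Finset.univ.filter fun i => σ' i = true ∧ σ i = false).card := by
    refine le_trans (Finset.card_le_card ?_) (Finset.card_union_le _ _)
    intro i hi
    rw [Finset.mem_filter] at hi
    rw [Finset.mem_union, Finset.mem_filter, Finset.mem_filter]
    have h4 := hi.2
    revert h4
    cases σ i <;> cases σ' i <;> simp
  rcases le_total (Finset.univ.filter fun i => σ' i = true ∧ σ i = false).card
    (Finset.univ.filter fun i => σ i = true ∧ σ' i = false).card with hle | hle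
  · exact E3_core hF f c hp rfl hab σ σ' n1 n2 (by omega)
  · exact E3_core hF f c hp rfl hab σ' σ n2 n1 (by omega)

end Pool.Agent.LibEN20
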