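import Pool.Agent.LibEN20.E3

/-!
[EN20 E4] (MEDIUM) SPARSIFICATION, page (2). `ε` decreasing, `Cov A k (ε k)` for all `k`, `∑ ε k / (k + 1) < ∞`.
`tail`: with `g n = 2 ε (n / 8)` (decreasing, `≥ 0` if `A ≠ ∅`; if `A = ∅` there is nothing to prove as `∑ c = 1` needs an index) and `N0 ≥ 2`: every probability weight `c` has a probability weight `c'` with `#supp c' ≤ N0` and error
`≤ g N0 + 32 ∑_{N0 < m ≤ n} g m / m`, `n = #supp c`: strong induction on `n`; `n ≤ N0`: `c' = c`, error `0`. `n > N0`: `step` with `k = n / 8` gives `n' ≤ 31 n / 32`, error `g n`. If `n' ≤ N0` stop (`g n ≤ g N0`). Otherwise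
induction; `32 ∑_{n' < m ≤ n} g m / m ≥ 32 (n - n') g n / n ≥ g n`.
`summ`: `∑ g m / m < ∞` (`g m / m ≤ 2 ε (m / 8) / m`; sum over the blocks `8 k ≤ m < 8 k + 8`, or comparison: the partial sums are bounded by `2 ε 0 * 8 + ∑_k 8 * 2 ε k / (8 k)`, use `summable_of_sum_range_le`), `g → 0`.
`sparse`: `N0` with `g N0 ≤ η / 2` and tail `≤ η / 64`.
-/

namespace Pool.Agent.LibEN20

theorem tail {E : Type*} [NormedAddCommGroup E] [Module ℝ E] (hF : IsFNorm E) {A : Set E} (hA : Convex ℝ A)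
    {ε : ℕ → ℝ} (hε : Antitone ε) (hε0 : ∀ k, 0 ≤ ε k) (hc : ∀ k, Cov A k (ε k)) {N0 : ℕ} (hN : 2 ≤ N0)
    {ι : Type*} [Fintype ι] (f : ι → E) (hf : ∀ i, f i ∈ A) (c : ι → ℝ) (hp : IsProb c) :
    ∃ c' : ι → ℝ, IsProb c' ∧ (supp c').card ≤ N0 ∧
      ‖∑ i, c i • f i - ∑ i, c' i • f i‖ ≤ 2 * ε (N0 / 8) +
        32 * ∑ m ∈ Finset.Ioc N0 (max N0 (supp c).card), 2 * ε (m / 8) / m := by
  have hterm : ∀ m : ℕ, 0 ≤ 2 * ε (m / 8) / (m : ℝ) := by
    intro m
    have := hε0 (m / 8)
    positivity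
  generalize hn : (supp c).card = n
  induction n using Nat.strong_induction_on generalizing c with
  | _ n ih =>
    by_cases hle : n ≤ N0
    · refine ⟨c, hp, hn ▸ hle, ?_⟩
      rw [sub_self, norm_zero]
      have h1 := hε0 (N0 / 8)
      have h2 : 0 ≤ ∑ m ∈ Finset.Ioc N0 (max N0 n), 2 * ε (m / 8) / (m : ℝ) :=
        Finset.sum_nonneg fun m _ => hterm m
      linarith
    · have hlt : N0 < n := by omega
      obtain ⟨c1, hp1, hcard, herr⟩ := step hF hA (hc (n / 8)) f hf c hp (by omega) (by omega)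
      rw [hn] at hcard
      have hmax : max N0 n = n := by omega
      rw [hmax]
      have hgn : 2 * ε (n / 8) ≤ 2 * ε (N0 / 8) := by
        have := hε (Nat.div_le_div_right (c := 8) hlt.le)
        linarith
      by_cases hle1 : (supp c1).card ≤ N0
      · refine ⟨c1, hp1, hle1, ?_⟩
        have h2 : 0 ≤ ∑ m ∈ Finset.Ioc N0 n, 2 * ε (m / 8) / (m : ℝ) :=
          Finset.sum_nonneg fun m _ => hterm m
        linarith
      · have hlt1 : N0 < (supp c1).card := by omega
        have hn1 : (supp c1).card < n := by omega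
        obtain ⟨c', hp', hcard', herr'⟩ := ih _ hn1 c1 hp1 rfl
        refine ⟨c', hp', hcard', ?_⟩
        have hmax1 : max N0 (supp c1).card = (supp c1).card := by omega
        rw [hmax1] at herr'
        have hsplit : ∑ m ∈ Finset.Ioc N0 n, 2 * ε (m / 8) / (m : ℝ) =
            ∑ m ∈ Finset.Ioc N0 (supp c1).card, 2 * ε (m / 8) / (m : ℝ) +
              ∑ m ∈ Finset.Ioc (supp c1).card n, 2 * ε (m / 8) / (m : ℝ) :=
          (Finset.sum_Ioc_consecutive _ hlt1.le hn1.le).symm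
        have hnpos : (0 : ℝ) < n := by
          exact_mod_cast (show 0 < n by omega)
        have hlow : ((n - (supp c1).card : ℕ) : ℝ) * (2 * ε (n / 8) / n) ≤
            ∑ m ∈ Finset.Ioc (supp c1).card n, 2 * ε (m / 8) / (m : ℝ) := by
          have h3 : ∀ m ∈ Finset.Ioc (supp c1).card n, 2 * ε (n / 8) / (n : ℝ) ≤
              2 * ε (m / 8) / (m : ℝ) := by
            intro m hm
            rw [Finset.mem_Ioc] at hm
            have hm0 : (0 : ℝ) < m := by
              exact_mod_cast (show 0 < m by omega)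
            have h4 : ε (n / 8) ≤ ε (m / 8) := hε (Nat.div_le_div_right hm.2)
            have h5 : (m : ℝ) ≤ n := by exact_mod_cast hm.2
            have h6 := hε0 (n / 8)
            exact div_le_div₀ (by linarith) (by linarith) hm0 h5
          have h7 := Finset.card_nsmul_le_sum _ _ _ h3
          rw [Nat.card_Ioc, nsmul_eq_mul] at h7
          exact h7
        have hcnt : (n : ℝ) ≤ 32 * ((n - (supp c1).card : ℕ) : ℝ) := by
          exact_mod_cast (show n ≤ 32 * (n - (supp c1).card) by omega)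
        have hkey : 2 * ε (n / 8) ≤
            32 * ∑ m ∈ Finset.Ioc (supp c1).card n, 2 * ε (m / 8) / (m : ℝ) := by
          have h8 : 2 * ε (n / 8) = (n : ℝ) * (2 * ε (n / 8) / n) := by
            field_simp
          have h9 : (n : ℝ) * (2 * ε (n / 8) / n) ≤
              32 * ((n - (supp c1).card : ℕ) : ℝ) * (2 * ε (n / 8) / n) :=
            mul_le_mul_of_nonneg_right hcnt (by
              have := hε0 (n / 8)
              positivity)
          calc 2 * ε (n / 8) = (n : ℝ) * (2 * ε (n / 8) / n) := h8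
            _ ≤ 32 * ((n - (supp c1).card : ℕ) : ℝ) * (2 * ε (n / 8) / n) := h9
            _ = 32 * (((n - (supp c1).card : ℕ) : ℝ) * (2 * ε (n / 8) / n)) := by ring
            _ ≤ _ := by linarith
        have htri : ‖∑ i, c i • f i - ∑ i, c' i • f i‖ ≤
            ‖∑ i, c i • f i - ∑ i, c1 i • f i‖ + ‖∑ i, c1 i • f i - ∑ i, c' i • f i‖ := by
          have h10 : ∑ i, c i • f i - ∑ i, c' i • f i =
              (∑ i, c i • f i - ∑ i, c1 i • f i) + (∑ i, c1 i • f i - ∑ i, c' i • f i) := by abel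
          rw [h10]
          exact norm_add_le _ _
        rw [hsplit]
        linarith

private theorem E4_half {h : ℕ → ℝ} (hs : Summable h) : Summable fun m : ℕ => h (m / 2) := by
  have e1 : HasSum (fun k : ℕ => (fun m : ℕ => h (m / 2)) (2 * k)) (∑' k, h k) := by
    have h1 : (fun k : ℕ => (fun m : ℕ => h (m / 2)) (2 * k)) = h := by
      funext k
      show h (2 * k / 2) = h k
      congr 1
      omega
    rw [h1]
    exact hs.hasSum
  have e2 : HasSum (fun k : ℕ => (fun m : ℕ => h (m / 2)) (2 * k + 1)) (∑' k, h k) := by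
    have h1 : (fun k : ℕ => (fun m : ℕ => h (m / 2)) (2 * k + 1)) = h := by
      funext k
      show h ((2 * k + 1) / 2) = h k
      congr 1
      omega
    rw [h1]
    exact hs.hasSum
  exact (e1.even_add_odd e2).summable

theorem summ {ε : ℕ → ℝ} (hε : Antitone ε) (hε0 : ∀ k, 0 ≤ ε k) (hs : Summable fun k : ℕ => ε k / (k + 1)) :
    Summable fun m : ℕ => 2 * ε (m / 8) / (m : ℝ) := by
  have h1 : Summable fun m : ℕ => 2 * (ε (m / 8) / (((m / 8 : ℕ) : ℝ) + 1)) := by
    refine Summable.mul_left 2 ?_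
    have h2 := E4_half (E4_half (E4_half hs))
    have h3 : (fun m : ℕ => ε (m / 8) / (((m / 8 : ℕ) : ℝ) + 1)) =
        fun m : ℕ => (fun m : ℕ => (fun m : ℕ => (fun k : ℕ => ε k / ((k : ℝ) + 1)) (m / 2)) (m / 2)) (m / 2) := by
      funext m
      have h4 : m / 8 = m / 2 / 2 / 2 := by omega
      rw [h4]
    rw [h3]
    exact h2
  refine Summable.of_nonneg_of_le (fun m => ?_) (fun m => ?_) h1
  · have := hε0 (m / 8)
    positivity
  · have h5 := hε0 (m / 8)
    rcases Nat.eq_zero_or_pos m with h0 | h0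
    · subst h0
      rw [Nat.cast_zero, div_zero]
      positivity
    · have h6 : ((m / 8 : ℕ) : ℝ) + 1 ≤ m := by
        exact_mod_cast (show m / 8 + 1 ≤ m by omega)
      have h7 : (0 : ℝ) ≤ ((m / 8 : ℕ) : ℝ) := Nat.cast_nonneg _
      have h8 : ε (m / 8) / (m : ℝ) ≤ ε (m / 8) / (((m / 8 : ℕ) : ℝ) + 1) :=
        div_le_div_of_nonneg_left h5 (by linarith) h6
      have h9 : 2 * ε (m / 8) / (m : ℝ) = 2 * (ε (m / 8) / (m : ℝ)) := by ring
      rw [h9]
      linarith

theorem to_zero {ε : ℕ → ℝ} (hε : Antitone ε) (hε0 : ∀ k, 0 ≤ ε k) (hs : Summable fun k : ℕ => ε k / (k + 1)) :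
    Filter.Tendsto ε Filter.atTop (nhds 0) := by
  have hb : BddBelow (Set.range ε) := ⟨0, by rintro _ ⟨k, rfl⟩; exact hε0 k⟩
  have h1 := tendsto_atTop_ciInf hε hb
  have h2 : (⨅ k, ε k) = 0 := by
    by_contra hne
    have hL : 0 < ⨅ k, ε k := lt_of_le_of_ne (Real.iInf_nonneg hε0) (Ne.symm hne)
    have h3 : ∀ k, (⨅ k, ε k) ≤ ε k := fun k => ciInf_le hb k
    have h4 : Summable fun k : ℕ => (⨅ k, ε k) * (1 / ((k : ℝ) + 1)) := by
      refine Summable.of_nonneg_of_le (fun k => ?_) (fun k => ?_) hs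
      · positivity
      · rw [mul_one_div]
        exact div_le_div_of_nonneg_right (h3 k) (by positivity)
    have h5 : Summable fun k : ℕ => 1 / ((k : ℝ) + 1) := by
      have h6 := h4.mul_left (⨅ k, ε k)⁻¹
      refine h6.congr fun k => ?_
      rw [← mul_assoc, inv_mul_cancel₀ hL.ne', one_mul]
    have h7 : Summable fun k : ℕ => 1 / (k : ℝ) := by
      rw [← summable_nat_add_iff 1]
      refine h5.congr fun k => ?_
      push_cast
      rfl
    exact Real.not_summable_one_div_natCast h7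
  rw [h2] at h1
  exact h1

theorem sparse {E : Type*} [NormedAddCommGroup E] [Module ℝ E] (hF : IsFNorm E) {A : Set E} (hA : Convex ℝ A)
    {ε : ℕ → ℝ} (hε : Antitone ε) (hε0 : ∀ k, 0 ≤ ε k) (hc : ∀ k, Cov A k (ε k))
    (hs : Summable fun k : ℕ => ε k / (k + 1)) {η : ℝ} (hη : 0 < η) :
    ∃ N0 : ℕ, ∀ (n : ℕ) (f : Fin n → E) (_ : ∀ i, f i ∈ A) (c : Fin n → ℝ) (_ : IsProb c),
      ∃ c' : Fin n → ℝ, IsProb c' ∧ (supp c').card ≤ N0 ∧ ‖∑ i, c i • f i - ∑ i, c' i • f i‖ ≤ η := by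
  obtain ⟨s, hsv⟩ := summable_iff_vanishing_norm.1 (summ hε hε0 hs) (η / 64) (by positivity)
  obtain ⟨K, hK⟩ := ((to_zero hε hε0 hs).eventually (gt_mem_nhds (show 0 < η / 4 by positivity))).exists
  let N0 : ℕ := max (max 2 (8 * K)) (s.sup id)
  have hN2 : 2 ≤ N0 := (le_max_left _ _).trans (le_max_left _ _)
  have hNK : 8 * K ≤ N0 := (le_max_right _ _).trans (le_max_left _ _)
  have hNs : s.sup id ≤ N0 := le_max_right _ _
  refine ⟨N0, fun n f hf c hp => ?_⟩
  obtain ⟨c', hp', hcard, herr⟩ := tail hF hA hε hε0 hc hN2 f hf c hp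
  refine ⟨c', hp', hcard, herr.trans ?_⟩
  have h1 : ε (N0 / 8) ≤ ε K := hε (by omega)
  have h2 := hsv (Finset.Ioc N0 (max N0 (supp c).card)) (by
    rw [Finset.disjoint_left]
    intro m hm hms
    rw [Finset.mem_Ioc] at hm
    have h3 : m ≤ s.sup id := Finset.le_sup (f := id) hms
    omega)
  have h4 := le_abs_self (∑ m ∈ Finset.Ioc N0 (max N0 (supp c).card), 2 * ε (m / 8) / (m : ℝ))
  rw [Real.norm_eq_abs] at h2
  linarith

end Pool.Agent.LibEN20
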