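import Pool.Agent.LibEN20.E4
import Pool.Agent.LibEN20.E5

/-!
[EN20 E6] (SHORT/MEDIUM) LOCAL CONVEXITY, page (3): `LC0 (K - K)`.
Given `η`: `N0` from `sparse` for `D = K - K` and `η / 2` (make it `≥ 1`), `ε' = η / (2 N0)`. An element of `convexHull ℝ (D ∩ closedBall 0 ε')` is `∑ i : Fin n, c i • d i` (`mem_convexHull_iff_exists_fintype` / `convexHull_eq`, reindex to `Fin n`), within `η / 2` of `∑ c' i • d i`,
which has at most `N0` nonzero terms, each of norm `≤ ‖d i‖ ≤ ε'` (`IsFNorm`, `0 ≤ c' i ≤ 1`).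
-/

namespace Pool.Agent.LibEN20

open Pointwise

theorem lc0 {E : Type*} [NormedAddCommGroup E] [Module ℝ E] (hF : IsFNorm E) {K : Set E} (hK : IsCompact K)
    (hc : Convex ℝ K) (hs : Summable fun k : ℕ => ent K k / (k + 1)) : LC0 (K - K) := by
  classical
  intro η hη
  obtain ⟨ε, hanti, hnonneg, hcov, hsum⟩ := exists_seq hK hs
  obtain ⟨N0, hN0⟩ := sparse hF (hc.sub hc) hanti hnonneg hcov hsum (half_pos hη)
  have hN1 : (0 : ℝ) < (N0 : ℝ) + 1 := by positivity
  refine ⟨η / 2 / ((N0 : ℝ) + 1), by positivity, ?_⟩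
  intro x hx
  rw [mem_convexHull_iff_exists_fintype] at hx
  obtain ⟨ι, hι, w, z, hw0, hw1, hz, hxz⟩ := hx
  let e := Fintype.equivFin ι
  have hprob : IsProb (fun i : Fin (Fintype.card ι) => w (e.symm i)) := by
    constructor
    · intro i
      exact hw0 _
    · rw [← hw1]
      exact Equiv.sum_comp e.symm w
  obtain ⟨c', hp', hcard, herr⟩ := hN0 (Fintype.card ι) (fun i => z (e.symm i))
    (fun i => (hz (e.symm i)).1) (fun i => w (e.symm i)) hprob
  have h1 : ∑ i, w (e.symm i) • z (e.symm i) = x := by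
    rw [← hxz]
    exact Equiv.sum_comp e.symm (fun j => w j • z j)
  rw [h1] at herr
  have hle1 : ∀ i, c' i ≤ 1 := by
    intro i
    rw [← hp'.sum]
    exact Finset.single_le_sum (fun j _ => hp'.nonneg j) (Finset.mem_univ i)
  have h2 : ∑ i, c' i • z (e.symm i) = ∑ i ∈ supp c', c' i • z (e.symm i) := by
    symm
    apply Finset.sum_subset (Finset.subset_univ _)
    intro i _ hi
    have : c' i = 0 := by
      by_contra hne
      exact hi (mem_supp.2 hne)
    rw [this, zero_smul]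
  have h3 : ‖∑ i, c' i • z (e.symm i)‖ ≤ η / 2 := by
    rw [h2]
    have h4 : ∀ i ∈ supp c', ‖c' i • z (e.symm i)‖ ≤ η / 2 / ((N0 : ℝ) + 1) := by
      intro i _
      have h5 : ‖c' i • z (e.symm i)‖ ≤ ‖z (e.symm i)‖ := by
        apply hF
        rw [abs_le]
        exact ⟨by linarith [hp'.nonneg i], hle1 i⟩
      have h6 := (hz (e.symm i)).2
      rw [mem_closedBall_zero_iff] at h6
      exact h5.trans h6
    calc ‖∑ i ∈ supp c', c' i • z (e.symm i)‖ ≤ ∑ i ∈ supp c', ‖c' i • z (e.symm i)‖ := norm_sum_le _ _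
      _ ≤ ∑ _i ∈ supp c', η / 2 / ((N0 : ℝ) + 1) := Finset.sum_le_sum h4
      _ = (supp c').card * (η / 2 / ((N0 : ℝ) + 1)) := by rw [Finset.sum_const, nsmul_eq_mul]
      _ ≤ ((N0 : ℝ) + 1) * (η / 2 / ((N0 : ℝ) + 1)) := by
        apply mul_le_mul_of_nonneg_right _ (by positivity)
        have : ((supp c').card : ℝ) ≤ N0 := by exact_mod_cast hcard
        linarith
      _ = η / 2 := by field_simp
  rw [mem_closedBall_zero_iff]
  calc ‖x‖ = ‖(x - ∑ i, c' i • z (e.symm i)) + ∑ i, c' i • z (e.symm i)‖ := by rw [sub_add_cancel]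
    _ ≤ ‖x - ∑ i, c' i • z (e.symm i)‖ + ‖∑ i, c' i • z (e.symm i)‖ := norm_add_le _ _
    _ ≤ η / 2 + η / 2 := add_le_add herr h3
    _ = η := by ring

end Pool.Agent.LibEN20
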