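import Pool.Agent.LibEN20.Defs

/-!
[EN20 E7] (MEDIUM, only Mathlib) The convex set `W`, page (4). `D` convex, symmetric, `0 ∈ D`, `LC0 D`, `δ > 0`.
Choose for `j : ℕ` some `e j > 0` with `C j := convexHull ℝ (D ∩ closedBall 0 (e j)) ⊆ closedBall 0 (δ / 2 ^ (j + 1) / (j + 1))`, and let `W` be the set of all `∑ j ∈ range n, (j + 1) • c j`, `n : ℕ`, `c j ∈ C j` (`0 ∈ C j`, so `n` may be enlarged).
`W` is convex, symmetric, contains `0`; `‖(j + 1) • c‖ ≤ (j + 1) ‖c‖` gives `W ⊆ closedBall 0 δ`; `(j + 1) • d ∈ W` for `d ∈ D`, `‖d‖ ≤ e j`. `absorb`: for `d ∈ D` and large `m`, `(1 / m) • d ∈ D ∩ closedBall 0 (e 0)` (`ContinuousSMul`), so it is in `W`.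
-/

namespace Pool.Agent.LibEN20

private theorem E7_sum (δ : ℝ) (n : ℕ) :
    ∑ j ∈ Finset.range n, δ / 2 ^ (j + 1) = δ - δ / 2 ^ n := by
  induction n with
  | zero => simp
  | succ n ih =>
    rw [Finset.sum_range_succ, ih, pow_succ]
    field_simp
    ring

private theorem E7_ext {E : Type*} [NormedAddCommGroup E] [Module ℝ E] {C : ℕ → Set E}
    (h0 : ∀ j, (0 : E) ∈ C j) {n N : ℕ} (hN : n ≤ N) {c : ℕ → E} (hc : ∀ j, c j ∈ C j) :
    ∃ c' : ℕ → E, (∀ j, c' j ∈ C j) ∧ ∑ j ∈ Finset.range n, ((j : ℝ) + 1) • c j =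
      ∑ j ∈ Finset.range N, ((j : ℝ) + 1) • c' j := by
  refine ⟨fun j => if j < n then c j else 0, fun j => ?_, ?_⟩
  · show (if j < n then c j else 0) ∈ C j
    split_ifs
    · exact hc j
    · exact h0 j
  · rw [← Finset.sum_subset (Finset.range_mono hN)]
    · refine Finset.sum_congr rfl fun j hj => ?_
      rw [Finset.mem_range] at hj
      show _ = ((j : ℝ) + 1) • (if j < n then c j else 0)
      rw [if_pos hj]
    · intro j _ hj
      rw [Finset.mem_range] at hj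
      show ((j : ℝ) + 1) • (if j < n then c j else 0) = 0
      rw [if_neg hj, smul_zero]

theorem exists_W {E : Type*} [NormedAddCommGroup E] [Module ℝ E] [ContinuousSMul ℝ E] {D : Set E}
    (hD : Convex ℝ D) (hs : ∀ x ∈ D, -x ∈ D) (h0 : (0 : E) ∈ D) (hL : LC0 D) {δ : ℝ} (hδ : 0 < δ) :
    ∃ W : Set E, Convex ℝ W ∧ (∀ x ∈ W, -x ∈ W) ∧ (0 : E) ∈ W ∧ W ⊆ Metric.closedBall 0 δ ∧
      (∀ j : ℕ, ∃ e > 0, ∀ d ∈ D, ‖d‖ ≤ e → ((j : ℝ) + 1) • d ∈ W) ∧
      ∀ d ∈ D, ∃ m : ℕ, 0 < m ∧ ((m : ℝ)⁻¹) • d ∈ W := by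
  have hex : ∀ j : ℕ, ∃ e > 0, convexHull ℝ (D ∩ Metric.closedBall 0 e) ⊆
      Metric.closedBall 0 (δ / 2 ^ (j + 1) / ((j : ℝ) + 1)) := fun j => hL _ (by positivity)
  choose e he hball using hex
  obtain ⟨C, hC⟩ : ∃ C : ℕ → Set E, C = fun j => convexHull ℝ (D ∩ Metric.closedBall 0 (e j)) :=
    ⟨_, rfl⟩
  have hCconv : ∀ j, Convex ℝ (C j) := by
    intro j
    rw [hC]
    exact convex_convexHull ℝ _
  have hCsub : ∀ j, ∀ x ∈ D, ‖x‖ ≤ e j → x ∈ C j := by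
    intro j x hx hxe
    rw [hC]
    exact subset_convexHull ℝ _ ⟨hx, by rw [mem_closedBall_zero_iff]; exact hxe⟩
  have hC0 : ∀ j, (0 : E) ∈ C j := by
    intro j
    refine hCsub j 0 h0 ?_
    rw [norm_zero]
    exact (he j).le
  have hCneg : ∀ j, ∀ x ∈ C j, -x ∈ C j := by
    intro j x hx
    rw [hC] at hx ⊢
    have h1 : -(D ∩ Metric.closedBall (0 : E) (e j)) = D ∩ Metric.closedBall 0 (e j) := by
      ext y
      rw [Set.mem_neg, Set.mem_inter_iff, Set.mem_inter_iff, mem_closedBall_zero_iff,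
        mem_closedBall_zero_iff, norm_neg]
      constructor
      · rintro ⟨h1, h2⟩
        have h3 := hs _ h1
        rw [neg_neg] at h3
        exact ⟨h3, h2⟩
      · rintro ⟨h1, h2⟩
        exact ⟨hs _ h1, h2⟩
    have h2 : -x ∈ -(convexHull ℝ (D ∩ Metric.closedBall (0 : E) (e j))) := by
      rw [Set.mem_neg, neg_neg]
      exact hx
    rw [← convexHull_neg, h1] at h2
    exact h2
  have hCn : ∀ j, ∀ x ∈ C j, ‖x‖ ≤ δ / 2 ^ (j + 1) / ((j : ℝ) + 1) := by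
    intro j x hx
    rw [hC] at hx
    have h1 := hball j hx
    rw [mem_closedBall_zero_iff] at h1
    exact h1
  have hmem : ∀ j : ℕ, ∀ d ∈ D, ‖d‖ ≤ e j → ((j : ℝ) + 1) • d ∈
      {x : E | ∃ (n : ℕ) (c : ℕ → E), (∀ j, c j ∈ C j) ∧
        x = ∑ j ∈ Finset.range n, ((j : ℝ) + 1) • c j} := by
    intro j d hd hde
    refine ⟨j + 1, fun i => if i = j then d else 0, fun i => ?_, ?_⟩
    · show (if i = j then d else 0) ∈ C i
      split_ifs with h
      · rw [h]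
        exact hCsub j d hd hde
      · exact hC0 i
    · rw [Finset.sum_eq_single j]
      · show ((j : ℝ) + 1) • d = ((j : ℝ) + 1) • (if j = j then d else 0)
        rw [if_pos rfl]
      · intro i _ hij
        show ((i : ℝ) + 1) • (if i = j then d else 0) = 0
        rw [if_neg hij, smul_zero]
      · intro h
        exact absurd (Finset.mem_range.2 (Nat.lt_succ_self j)) h
  refine ⟨{x : E | ∃ (n : ℕ) (c : ℕ → E), (∀ j, c j ∈ C j) ∧
    x = ∑ j ∈ Finset.range n, ((j : ℝ) + 1) • c j}, ?_, ?_, ?_, ?_, ?_, ?_⟩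
  · rintro x ⟨n, c, hc, rfl⟩ y ⟨m, c', hc', rfl⟩ a b ha hb hab
    obtain ⟨u, hu, hue⟩ := E7_ext hC0 (le_max_left n m) hc
    obtain ⟨v, hv, hve⟩ := E7_ext hC0 (le_max_right n m) hc'
    refine ⟨max n m, fun j => a • u j + b • v j, fun j => hCconv j (hu j) (hv j) ha hb hab, ?_⟩
    rw [hue, hve, Finset.smul_sum, Finset.smul_sum, ← Finset.sum_add_distrib]
    refine Finset.sum_congr rfl fun j _ => ?_
    rw [smul_add, smul_comm a, smul_comm b]
  · rintro x ⟨n, c, hc, rfl⟩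
    refine ⟨n, fun j => -c j, fun j => hCneg j _ (hc j), ?_⟩
    rw [← Finset.sum_neg_distrib]
    refine Finset.sum_congr rfl fun j _ => ?_
    rw [smul_neg]
  · exact ⟨0, fun _ => 0, hC0, by simp⟩
  · rintro x ⟨n, c, hc, rfl⟩
    rw [mem_closedBall_zero_iff]
    have h1 : ∀ j ∈ Finset.range n, ‖((j : ℝ) + 1) • c j‖ ≤ δ / 2 ^ (j + 1) := by
      intro j _
      have h2 : ((j : ℝ) + 1) • c j = (j + 1 : ℕ) • c j := by
        rw [← Nat.cast_smul_eq_nsmul ℝ]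
        push_cast
        rfl
      have h3 : ‖(j + 1 : ℕ) • c j‖ ≤ ((j + 1 : ℕ) : ℝ) * ‖c j‖ := norm_nsmul_le
      have h4 := hCn j _ (hc j)
      have h5 : (0 : ℝ) < (j : ℝ) + 1 := by positivity
      rw [h2]
      refine h3.trans ?_
      push_cast
      calc ((j : ℝ) + 1) * ‖c j‖ ≤ ((j : ℝ) + 1) * (δ / 2 ^ (j + 1) / ((j : ℝ) + 1)) :=
            mul_le_mul_of_nonneg_left h4 h5.le
        _ = δ / 2 ^ (j + 1) := by field_simp
    refine (norm_sum_le_of_le _ h1).trans ?_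
    rw [E7_sum]
    have h6 : 0 < δ / 2 ^ n := by positivity
    linarith
  · exact fun j => ⟨e j, he j, hmem j⟩
  · intro d hd
    have h1 : Filter.Tendsto (fun m : ℕ => ((m : ℝ)⁻¹) • d) Filter.atTop (nhds 0) := by
      have h2 : Filter.Tendsto (fun m : ℕ => ((m : ℝ)⁻¹)) Filter.atTop (nhds 0) :=
        tendsto_inv_atTop_nhds_zero_nat
      have h3 := h2.smul_const d
      rw [zero_smul] at h3
      exact h3
    have h4 : ∀ᶠ m : ℕ in Filter.atTop, ‖((m : ℝ)⁻¹) • d‖ < e 0 := by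
      have h5 := h1.norm
      rw [norm_zero] at h5
      exact h5.eventually (gt_mem_nhds (he 0))
    obtain ⟨m, hm, hm1⟩ := (h4.and (Filter.eventually_ge_atTop 1)).exists
    refine ⟨m, hm1, ?_⟩
    have h6 : (1 : ℝ) ≤ m := by exact_mod_cast hm1
    have h7 : ((m : ℝ)⁻¹) • d ∈ D := by
      have h8 : (0 : ℝ) ≤ (m : ℝ)⁻¹ := by positivity
      have h9 : (m : ℝ)⁻¹ ≤ 1 := inv_le_one_of_one_le₀ h6
      have h10 := hD hd h0 h8 (sub_nonneg.2 h9) (by ring)
      rw [smul_zero, add_zero] at h10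
      exact h10
    have h11 := hmem 0 _ h7 hm.le
    rw [Nat.cast_zero, zero_add, one_smul] at h11
    exact h11

end Pool.Agent.LibEN20
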