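import Pool.Agent.LibEN20.E7

/-!
[EN20 E8] (MEDIUM) HAHN-BANACH, page (4). `v ∈ D`, `v ≠ 0`, `δ = ‖v‖ / 2`, `W` from `exists_W`. Let `V = Submodule.span ℝ D`, `W' = {x : V | (x : E) ∈ W}`: convex, symmetric, contains `0`, and absorbs every element of `V`: (the set of `x : E` with `∃ m > 0, m⁻¹ • x ∈ W` is closed under
`+` and `•` as `W` is convex and symmetric, and contains `D`; `Submodule.span_induction`). `q = gauge W'` : `gauge_add_le`, `gauge_smul_of_nonneg`, `q v ≥ 1` as `v ∉ W` (`le_gauge_of_notMem` or `gauge_lt_one_eq_self_of..`: if `gauge W' v < 1` then `v ∈ W'`, `W'` star-convex at `0` and absorbent), `q x = q (-x)`.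
Hahn-Banach `exists_extension_of_le_sublinear` (from the line `ℝ v`, `φ (t v) = t q v ≤ q (t v)`), or: the map `LinearPMap.mkSpanSingleton`. Then `φ ≤ q` on `V`, `φ v = q v ≥ 1`. Extend `φ` to `E` by `LinearMap.exists_extend`. For `d ∈ D`, `‖d‖ ≤ e` : `(j + 1) • (± d) ∈ W` so `|φ d| ≤ q d ≤ 1 / (j + 1)` (`gauge_le_one_of_mem`).
-/

namespace Pool.Agent.LibEN20

private theorem E8_span {E : Type*} [AddCommGroup E] [Module ℝ E] {D W : Set E}
    (hWc : Convex ℝ W) (hWs : ∀ x ∈ W, -x ∈ W) (hW0 : (0 : E) ∈ W)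
    (hWa : ∀ d ∈ D, ∃ m : ℕ, 0 < m ∧ ((m : ℝ)⁻¹) • d ∈ W) (x : E) (hx : x ∈ Submodule.span ℝ D) :
    ∃ m : ℝ, 0 < m ∧ m⁻¹ • x ∈ W := by
  induction hx using Submodule.span_induction with
  | mem d hd =>
    obtain ⟨m, hm, h⟩ := hWa d hd
    exact ⟨m, by exact_mod_cast hm, h⟩
  | zero => exact ⟨1, one_pos, by rw [smul_zero]; exact hW0⟩
  | add x y _ _ hx hy =>
    obtain ⟨m, hm, h⟩ := hx
    obtain ⟨n, hn, h'⟩ := hy
    have hmn : 0 < m + n := add_pos hm hn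
    refine ⟨m + n, hmn, ?_⟩
    have h1 : (m + n)⁻¹ • (x + y) = (m / (m + n)) • (m⁻¹ • x) + (n / (m + n)) • (n⁻¹ • y) := by
      rw [smul_add, smul_smul, smul_smul]
      congr 2
      · field_simp
      · field_simp
    rw [h1]
    refine hWc h h' (by positivity) (by positivity) ?_
    rw [← add_div, div_self hmn.ne']
  | smul a x _ hx =>
    obtain ⟨m, hm, h⟩ := hx
    rcases lt_trichotomy a 0 with ha | ha | ha
    · refine ⟨(-a) * m, mul_pos (by linarith) hm, ?_⟩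
      have h1 : ((-a) * m)⁻¹ • (a • x) = -(m⁻¹ • x) := by
        rw [smul_smul, ← neg_smul]
        congr 1
        have := ha.ne
        field_simp
      rw [h1]
      exact hWs _ h
    · refine ⟨1, one_pos, ?_⟩
      rw [ha, zero_smul, smul_zero]
      exact hW0
    · refine ⟨a * m, mul_pos ha hm, ?_⟩
      have h1 : (a * m)⁻¹ • (a • x) = m⁻¹ • x := by
        rw [smul_smul]
        congr 1
        field_simp
      rw [h1]
      exact h

private theorem E8_absorb {V : Type*} [AddCommGroup V] [Module ℝ V] {S : Set V} (hc : Convex ℝ S)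
    (hs : ∀ x ∈ S, -x ∈ S) (ha : ∀ x : V, ∃ m : ℝ, 0 < m ∧ m⁻¹ • x ∈ S) : Absorbent ℝ S := by
  have hb : Balanced ℝ S := (balanced_iff_neg_mem hc).2 fun x hx => hs x hx
  intro x
  rw [absorbs_iff_norm]
  obtain ⟨m, hm, h⟩ := ha x
  refine ⟨m, fun c hcm => ?_⟩
  rw [Set.singleton_subset_iff]
  have hc0 : c ≠ 0 := by
    rintro rfl
    rw [norm_zero] at hcm
    linarith
  rw [Set.mem_smul_set_iff_inv_smul_mem₀ hc0]
  have h1 : c⁻¹ • x = (m / c) • (m⁻¹ • x) := by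
    rw [smul_smul]
    congr 1
    field_simp
  rw [h1]
  refine (balanced_iff_smul_mem.1 hb) ?_ h
  rw [norm_div, Real.norm_of_nonneg hm.le]
  exact div_le_one_of_le₀ hcm (norm_nonneg _)

private theorem E8_hb {V : Type*} [AddCommGroup V] [Module ℝ V] {S : Set V} (hc : Convex ℝ S)
    (hs : ∀ x ∈ S, -x ∈ S) (h0 : (0 : V) ∈ S) (ha : Absorbent ℝ S) {v : V} (hv : v ∉ S) :
    ∃ g : V →ₗ[ℝ] ℝ, 1 ≤ g v ∧ ∀ x, g x ≤ gauge S x := by
  have hv0 : v ≠ 0 := by
    rintro rfl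
    exact hv h0
  have h1 : 1 ≤ gauge S v := one_le_gauge_of_notMem (hc.starConvex h0) (ha v) hv
  obtain ⟨g, hg1, hg2⟩ := exists_extension_of_le_sublinear
    (LinearPMap.mkSpanSingleton v (gauge S v) hv0) (gauge S)
    (fun c hc0 x => by rw [gauge_smul_of_nonneg hc0.le, smul_eq_mul])
    (fun x y => gauge_add_le hc ha x y)
    (by
      rintro ⟨x, hx⟩
      obtain ⟨c, rfl⟩ := Submodule.mem_span_singleton.1 hx
      rw [LinearPMap.mkSpanSingleton'_apply, smul_eq_mul]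
      rcases le_or_gt 0 c with hc0 | hc0
      · show c * gauge S v ≤ gauge S (c • v)
        rw [gauge_smul_of_nonneg hc0, smul_eq_mul]
      · have h2 : c * gauge S v ≤ 0 := mul_nonpos_of_nonpos_of_nonneg hc0.le (gauge_nonneg _)
        exact h2.trans (gauge_nonneg _))
  refine ⟨g, ?_, hg2⟩
  have h3 : g v = gauge S v := by
    have h4 := hg1 ⟨v, Submodule.mem_span_singleton_self v⟩
    rw [LinearPMap.mkSpanSingleton_apply] at h4
    exact h4
  rw [h3]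
  exact h1

theorem exists_functional {E : Type*} [NormedAddCommGroup E] [Module ℝ E] [ContinuousSMul ℝ E] {D : Set E}
    (hD : Convex ℝ D) (hs : ∀ x ∈ D, -x ∈ D) (h0 : (0 : E) ∈ D) (hL : LC0 D) {v : E} (hv : v ∈ D) (hv0 : v ≠ 0) :
    ∃ φ : E →ₗ[ℝ] ℝ, φ v ≠ 0 ∧ ∀ η > 0, ∃ e > 0, ∀ d ∈ D, ‖d‖ ≤ e → |φ d| ≤ η := by
  have hvn : 0 < ‖v‖ := norm_pos_iff.2 hv0
  obtain ⟨W, hWc, hWs, hW0, hWb, hWj, hWa⟩ := exists_W hD hs h0 hL (half_pos hvn)
  have hvW : v ∉ W := by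
    intro h
    have h1 := hWb h
    rw [mem_closedBall_zero_iff] at h1
    linarith
  obtain ⟨S, hS⟩ : ∃ S : Set (Submodule.span ℝ D), S = (Submodule.span ℝ D).subtype ⁻¹' W := ⟨_, rfl⟩
  have hmem : ∀ x : Submodule.span ℝ D, x ∈ S ↔ (x : E) ∈ W := fun x => by
    rw [hS]
    exact Iff.rfl
  have hSc : Convex ℝ S := by
    rw [hS]
    exact hWc.linear_preimage (Submodule.span ℝ D).subtype
  have hSs : ∀ x ∈ S, -x ∈ S := by
    intro x hx
    rw [hmem] at hx ⊢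
    exact hWs _ hx
  have hS0 : (0 : Submodule.span ℝ D) ∈ S := (hmem 0).2 hW0
  have hSa : Absorbent ℝ S := by
    refine E8_absorb hSc hSs fun x => ?_
    obtain ⟨m, hm, h⟩ := E8_span hWc hWs hW0 hWa (x : E) x.2
    exact ⟨m, hm, (hmem _).2 h⟩
  have hin : ∀ d ∈ D, d ∈ Submodule.span ℝ D := fun d hd => Submodule.subset_span hd
  obtain ⟨g, hg1, hg2⟩ := E8_hb hSc hSs hS0 hSa (v := ⟨v, hin v hv⟩) (fun h => hvW ((hmem _).1 h))
  obtain ⟨φ, hφ⟩ := LinearMap.exists_extend g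
  have hφd : ∀ (d : E) (hd : d ∈ Submodule.span ℝ D), φ d = g ⟨d, hd⟩ := by
    intro d hd
    have h1 := LinearMap.congr_fun hφ ⟨d, hd⟩
    exact h1
  refine ⟨φ, ?_, ?_⟩
  · rw [hφd v (hin v hv)]
    linarith
  · intro η hη
    obtain ⟨j, hj⟩ := exists_nat_one_div_lt hη
    obtain ⟨e, he, hed⟩ := hWj j
    refine ⟨e, he, fun d hd hde => ?_⟩
    have hj0 : (0 : ℝ) < (j : ℝ) + 1 := by positivity
    have h1 : gauge S (((j : ℝ) + 1) • (⟨d, hin d hd⟩ : Submodule.span ℝ D)) ≤ 1 :=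
      gauge_le_one_of_mem ((hmem _).2 (hed d hd hde))
    rw [gauge_smul_of_nonneg hj0.le, smul_eq_mul] at h1
    have h2 : gauge S (⟨d, hin d hd⟩ : Submodule.span ℝ D) ≤ 1 / ((j : ℝ) + 1) := by
      rw [le_div_iff₀ hj0]
      linarith
    have h3 := hg2 ⟨d, hin d hd⟩
    have h4 := hg2 (-⟨d, hin d hd⟩)
    rw [gauge_neg hSs, map_neg] at h4
    rw [hφd d (hin d hd), abs_le]
    constructor
    · linarith
    · linarith

end Pool.Agent.LibEN20
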