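import Pool.Agent.LibEN20.E6
import Pool.Agent.LibEN20.E8

/-!
[EN20 E9] (SHORT) `separating`: linear functionals on `E` which are continuous on `K` separate the points of `K`, if `LC0 (K - K)` (apply `exists_functional` to `D = K - K`, `v = x - y`; `φ x' - φ y' = φ (x' - y')` is small when `x' - y' ∈ D` is small).
-/

namespace Pool.Agent.LibEN20

open Pointwise

theorem separating {E : Type*} [NormedAddCommGroup E] [Module ℝ E] [ContinuousSMul ℝ E] {K : Set E}
    (hc : Convex ℝ K) (hL : LC0 (K - K)) {x y : E} (hx : x ∈ K) (hy : y ∈ K) (hxy : x ≠ y) :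
    ∃ φ : E →ₗ[ℝ] ℝ, ContinuousOn φ K ∧ φ x ≠ φ y := by
  obtain ⟨φ, h1, h2⟩ := exists_functional (D := K - K) (hc.sub hc)
    (by
      rintro _ ⟨a, ha, b, hb, rfl⟩
      exact ⟨b, hb, a, ha, by simp⟩)
    ⟨x, hx, x, hx, by simp⟩ hL (v := x - y) ⟨x, hx, y, hy, rfl⟩ (sub_ne_zero.2 hxy)
  refine ⟨φ, ?_, ?_⟩
  · rw [Metric.continuousOn_iff]
    intro b hb ε hε
    obtain ⟨e, he, h3⟩ := h2 (ε / 2) (by positivity)
    refine ⟨e, he, fun a ha hab => ?_⟩
    rw [dist_eq_norm] at hab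
    have h4 := h3 (a - b) ⟨a, ha, b, hb, rfl⟩ hab.le
    rw [map_sub] at h4
    rw [Real.dist_eq]
    linarith
  · intro h
    apply h1
    rw [map_sub, h, sub_self]

end Pool.Agent.LibEN20
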