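import Mathlib

/-!
[EN20 G1] (SHORT/MEDIUM, only Mathlib) FIBRES. `C` compact convex in `V × ℝ`, `fhi C x`, `flo C x` the ends of the fibre of `C` over `x`. The fibre `{t | (x, t) ∈ C}` is compact (closed by continuity of `t ↦ (x, t)`, bounded: `t = Prod.snd (x, t) ∈ Prod.snd '' C`), convex and nonempty for `x ∈ Prod.fst '' C`,
so it contains its `sSup` and `sInf` (`IsCompact.sSup_mem`, `IsCompact.sInf_mem`), and `fibre_iff` follows (`Convex.ordConnected` or `segment` for the direction from right to left, `le_csSup`, `csInf_le` for the other).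
-/

namespace Pool.Agent.LibEN20

variable {V : Type*} [NormedAddCommGroup V] [NormedSpace ℝ V] {C : Set (V × ℝ)}

/-- upper end of the fibre over `x` -/
noncomputable def fhi (C : Set (V × ℝ)) (x : V) : ℝ := sSup {t : ℝ | (x, t) ∈ C}

/-- lower end of the fibre over `x` -/
noncomputable def flo (C : Set (V × ℝ)) (x : V) : ℝ := sInf {t : ℝ | (x, t) ∈ C}

theorem isCompact_fibre (hc : IsCompact C) (x : V) : IsCompact {t : ℝ | (x, t) ∈ C} := by
  have h1 : IsClosed {t : ℝ | (x, t) ∈ C} :=
    hc.isClosed.preimage (Continuous.prodMk_right x)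
  refine (hc.image continuous_snd).of_isClosed_subset h1 ?_
  intro t ht
  exact ⟨(x, t), ht, rfl⟩

private theorem G1_nonempty {x : V} (hx' : x ∈ Prod.fst '' C) : {t : ℝ | (x, t) ∈ C}.Nonempty := by
  obtain ⟨p, hp, rfl⟩ := hx'
  exact ⟨p.2, hp⟩

theorem mem_fhi (hc : IsCompact C) {x : V} (hx' : x ∈ Prod.fst '' C) : (x, fhi C x) ∈ C :=
  (isCompact_fibre hc x).sSup_mem (G1_nonempty hx')

theorem mem_flo (hc : IsCompact C) {x : V} (hx' : x ∈ Prod.fst '' C) : (x, flo C x) ∈ C :=
  (isCompact_fibre hc x).sInf_mem (G1_nonempty hx')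

theorem fibre_iff (hc : IsCompact C) (hx : Convex ℝ C) {x : V} (hx' : x ∈ Prod.fst '' C) (t : ℝ) :
    (x, t) ∈ C ↔ flo C x ≤ t ∧ t ≤ fhi C x := by
  constructor
  · intro ht
    exact ⟨csInf_le (isCompact_fibre hc x).bddBelow ht, le_csSup (isCompact_fibre hc x).bddAbove ht⟩
  · intro ht
    have h1 : Convex ℝ {t : ℝ | (x, t) ∈ C} := by
      intro s hs r hr a b ha hb hab
      have h2 := hx hs hr ha hb hab
      have h3 : a • (x, s) + b • (x, r) = (x, a • s + b • r) := by
        rw [Prod.smul_mk, Prod.smul_mk, Prod.mk_add_mk, ← add_smul, hab, one_smul]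
      rw [h3] at h2
      exact h2
    exact h1.ordConnected.out (mem_flo hc hx') (mem_fhi hc hx') ht

end Pool.Agent.LibEN20
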