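import Pool.Agent.LibEN20.G1

/-!
[EN20 G2] (MEDIUM) `flo_lt_fhi`: over an interior point `x` of the projection `B` the fibre is not a single point. Take `(x₀, t₀) ∈ interior C`; `x` is interior in `B`, so for a small `ε > 0` the point `x' = x + ε (x - x₀)` is in `B` (continuity of `ε ↦ x + ε (x - x₀)` at `0`), `(x', t') ∈ C`.
`x = (1 / (1 + ε)) x' + (ε / (1 + ε)) x₀`, so `(x, t'') ∈ interior C` with `t'' = (1 / (1 + ε)) t' + (ε / (1 + ε)) t₀` (`Convex.combo_self_interior_mem_interior`). Then `(x, t'' ± η) ∈ C` for a small `η > 0` and `fibre_iff` gives `flo ≤ t'' - η < t'' + η ≤ fhi`.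
`zero_mem`: if `C ∈ 𝓝 0` then `0 ∈ interior (Prod.fst '' C)` (`Prod.fst` is an open map). `smul_subset`: `B` convex, `0 ∈ interior B`, `0 ≤ s < 1`: `s • B ⊆ interior B` (`Convex.combo_self_interior_mem_interior` again).
-/

namespace Pool.Agent.LibEN20

open scoped Pointwise Topology

variable {V : Type*} [NormedAddCommGroup V] [NormedSpace ℝ V] {C : Set (V × ℝ)}

theorem flo_lt_fhi (hc : IsCompact C) (hx : Convex ℝ C) (hi : (interior C).Nonempty) {x : V}
    (hx' : x ∈ interior (Prod.fst '' C)) : flo C x < fhi C x := by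
  obtain ⟨p0, hp0⟩ := hi
  have hg : Continuous fun e : ℝ => x + e • (x - p0.1) := by fun_prop
  have h1 : (fun e : ℝ => x + e • (x - p0.1)) ⁻¹' interior (Prod.fst '' C) ∈ 𝓝 (0 : ℝ) := by
    apply hg.continuousAt.preimage_mem_nhds
    rw [zero_smul, add_zero]
    exact isOpen_interior.mem_nhds hx'
  obtain ⟨r, hr, hball⟩ := Metric.mem_nhds_iff.1 h1
  have he : r / 2 ∈ Metric.ball (0 : ℝ) r := by
    rw [Metric.mem_ball, Real.dist_eq, sub_zero, abs_of_pos (half_pos hr)]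
    exact half_lt_self hr
  have h2 := interior_subset (hball he)
  obtain ⟨y, hy, hy1⟩ := h2
  obtain ⟨ε, hε⟩ : ∃ ε : ℝ, ε = r / 2 := ⟨_, rfl⟩
  rw [← hε] at hy1
  have hε0 : 0 < ε := by rw [hε]; exact half_pos hr
  have hε1 : 0 < 1 + ε := by linarith
  have hab : 1 / (1 + ε) + ε / (1 + ε) = 1 := by field_simp
  have h3 := hx.combo_self_interior_mem_interior hy hp0 (a := 1 / (1 + ε)) (b := ε / (1 + ε))
    (by positivity) (by positivity) hab
  obtain ⟨p, hp⟩ : ∃ p : V × ℝ, p = (1 / (1 + ε)) • y + (ε / (1 + ε)) • p0 := ⟨_, rfl⟩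
  rw [← hp] at h3
  have hp1 : p.1 = x := by
    rw [hp, Prod.fst_add, Prod.smul_fst, Prod.smul_fst, hy1]
    have e1 : (1 / (1 + ε)) • (x + ε • (x - p0.1)) + (ε / (1 + ε)) • p0.1 =
        ((1 / (1 + ε)) * (1 + ε)) • x + ((ε / (1 + ε)) - (1 / (1 + ε)) * ε) • p0.1 := by
      module
    have e2 : (1 / (1 + ε)) * (1 + ε) = 1 := by field_simp
    have e3 : (ε / (1 + ε)) - (1 / (1 + ε)) * ε = 0 := by field_simp; ring
    rw [e1, e2, e3, one_smul, zero_smul, add_zero]
  have hs : Continuous fun e : ℝ => ((x, p.2 + e) : V × ℝ) := by fun_prop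
  have h4 : (fun e : ℝ => ((x, p.2 + e) : V × ℝ)) ⁻¹' interior C ∈ 𝓝 (0 : ℝ) := by
    apply hs.continuousAt.preimage_mem_nhds
    rw [add_zero, ← hp1]
    exact isOpen_interior.mem_nhds h3
  obtain ⟨r', hr', hball'⟩ := Metric.mem_nhds_iff.1 h4
  have hm1 : r' / 2 ∈ Metric.ball (0 : ℝ) r' := by
    rw [Metric.mem_ball, Real.dist_eq, sub_zero, abs_of_pos (half_pos hr')]
    exact half_lt_self hr'
  have hm2 : -(r' / 2) ∈ Metric.ball (0 : ℝ) r' := by
    rw [Metric.mem_ball, Real.dist_eq, sub_zero, abs_neg, abs_of_pos (half_pos hr')]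
    exact half_lt_self hr'
  have h5 : (x, p.2 + r' / 2) ∈ C := interior_subset (hball' hm1)
  have h6 : (x, p.2 + -(r' / 2)) ∈ C := interior_subset (hball' hm2)
  have hx1 := interior_subset hx'
  have h7 := ((fibre_iff hc hx hx1 _).1 h5).2
  have h8 := ((fibre_iff hc hx hx1 _).1 h6).1
  linarith

theorem zero_mem (h0 : C ∈ 𝓝 (0 : V × ℝ)) : (0 : V) ∈ interior (Prod.fst '' C) := by
  rw [mem_interior_iff_mem_nhds]
  exact isOpenMap_fst.image_mem_nhds h0

theorem smul_subset {B : Set V} (hB : Convex ℝ B) (h0 : (0 : V) ∈ interior B) {s : ℝ} (hs : 0 ≤ s) (hs1 : s < 1) :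
    s • B ⊆ interior B := by
  rintro _ ⟨z, hz, rfl⟩
  have h := hB.combo_self_interior_mem_interior hz h0 hs (sub_pos.2 hs1) (add_sub_cancel s 1)
  rw [smul_zero, add_zero] at h
  exact h

end Pool.Agent.LibEN20
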