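import Pool.Agent.LibEN20.G1

/-!
[EN20 G3] (SHORT/MEDIUM) `fhi C` is concave and `flo C` is convex on the projection `B` (if `x, y ∈ B`, the convex combination of `(x, fhi C x)` and `(y, fhi C y)` is in `C`, `fibre_iff`), so both are continuous on the interior of `B` (`ConcaveOn.continuousOn_interior`, `ConvexOn.continuousOn_interior`, finite dimension).
-/

namespace Pool.Agent.LibEN20

variable {V : Type*} [NormedAddCommGroup V] [NormedSpace ℝ V] {C : Set (V × ℝ)}

private theorem G3_convex (hx : Convex ℝ C) : Convex ℝ (Prod.fst '' C) :=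
  hx.linear_image (LinearMap.fst ℝ V ℝ)

theorem concaveOn_fhi (hc : IsCompact C) (hx : Convex ℝ C) : ConcaveOn ℝ (Prod.fst '' C) (fhi C) := by
  refine ⟨G3_convex hx, ?_⟩
  intro x hx1 y hy1 a b ha hb hab
  have h := hx (mem_fhi hc hx1) (mem_fhi hc hy1) ha hb hab
  exact ((fibre_iff hc hx (G3_convex hx hx1 hy1 ha hb hab) _).1 h).2

theorem convexOn_flo (hc : IsCompact C) (hx : Convex ℝ C) : ConvexOn ℝ (Prod.fst '' C) (flo C) := by
  refine ⟨G3_convex hx, ?_⟩
  intro x hx1 y hy1 a b ha hb hab
  have h := hx (mem_flo hc hx1) (mem_flo hc hy1) ha hb hab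
  exact ((fibre_iff hc hx (G3_convex hx hx1 hy1 ha hb hab) _).1 h).1

theorem continuousOn_fhi [FiniteDimensional ℝ V] (hc : IsCompact C) (hx : Convex ℝ C) :
    ContinuousOn (fhi C) (interior (Prod.fst '' C)) :=
  (concaveOn_fhi hc hx).continuousOn_interior

theorem continuousOn_flo [FiniteDimensional ℝ V] (hc : IsCompact C) (hx : Convex ℝ C) :
    ContinuousOn (flo C) (interior (Prod.fst '' C)) :=
  (convexOn_flo hc hx).continuousOn_interior

end Pool.Agent.LibEN20
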