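import Pool.Agent.LibEN20.G2
import Pool.Agent.LibEN20.G3

/-!
[EN20 G4] (MEDIUM) THE FIBRE MAP. `B` a set, `s > 0`, `s • B ⊆ interior (Prod.fst '' C)`. The map `(x, t) ↦ (s x, m(s x) + l(s x) t)`, `m = (flo C + fhi C) / 2`, `l = (fhi C - flo C) / 2 > 0`, is a homeomorphism of `B × [-1, 1]` onto `{p ∈ C | p.1 ∈ s • B}`; inverse `(y, u) ↦ (s⁻¹ y, (u - m y) / l y)`.
Give the `Homeomorph` by its two maps (`toFun`, `invFun`, `left_inv`, `right_inv`, two continuity proofs: `Continuous.subtype_mk`, `ContinuousOn.comp_continuous` with `continuousOn_fhi`, `continuousOn_flo`; division by `l ≠ 0`). Membership in `C` by `fibre_iff`: `|t| ≤ 1 ↔ flo ≤ m + l t ≤ fhi`.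
-/

namespace Pool.Agent.LibEN20

open scoped Pointwise Topology

variable {V : Type*} [NormedAddCommGroup V] [NormedSpace ℝ V] [FiniteDimensional ℝ V] {C : Set (V × ℝ)}

private lemma G4_pos (hc : IsCompact C) (hx : Convex ℝ C) (hi : (interior C).Nonempty) {y : V}
    (hy : y ∈ interior (Prod.fst '' C)) : 0 < (fhi C y - flo C y) / 2 := by
  have := flo_lt_fhi hc hx hi hy
  linarith

private lemma G4_mem (hc : IsCompact C) (hx : Convex ℝ C) (hi : (interior C).Nonempty) {y : V}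
    (hy : y ∈ interior (Prod.fst '' C)) {t : ℝ} (ht : t ∈ Set.Icc (-1 : ℝ) 1) :
    (y, (flo C y + fhi C y) / 2 + (fhi C y - flo C y) / 2 * t) ∈ C := by
  have hl := G4_pos hc hx hi hy
  rw [fibre_iff hc hx (interior_subset hy)]
  obtain ⟨h1, h2⟩ := ht
  constructor
  · nlinarith
  · nlinarith

private lemma G4_mem_inv (hc : IsCompact C) (hx : Convex ℝ C) (hi : (interior C).Nonempty) {y : V}
    (hy : y ∈ interior (Prod.fst '' C)) {u : ℝ} (hu : (y, u) ∈ C) :
    (u - (flo C y + fhi C y) / 2) / ((fhi C y - flo C y) / 2) ∈ Set.Icc (-1 : ℝ) 1 := by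
  have hl := G4_pos hc hx hi hy
  rw [fibre_iff hc hx (interior_subset hy)] at hu
  obtain ⟨h1, h2⟩ := hu
  constructor
  · rw [le_div_iff₀ hl]; linarith
  · rw [div_le_iff₀ hl]; linarith

theorem exists_fibre_homeo (hc : IsCompact C) (hx : Convex ℝ C) (hi : (interior C).Nonempty) (B : Set V) {s : ℝ}
    (hs : 0 < s) (hB : s • B ⊆ interior (Prod.fst '' C)) :
    ∃ h : (B ×ˢ Set.Icc (-1 : ℝ) 1 : Set (V × ℝ)) ≃ₜ {p : V × ℝ | p ∈ C ∧ p.1 ∈ s • B},
      ∀ p, (h p : V × ℝ).1 = s • (p : V × ℝ).1 := by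
  have hcf : ContinuousOn (fhi C) (interior (Prod.fst '' C)) := continuousOn_fhi hc hx
  have hcl : ContinuousOn (flo C) (interior (Prod.fst '' C)) := continuousOn_flo hc hx
  have hcont : ∀ {X : Type _} [TopologicalSpace X] (g : X → V), Continuous g →
      (∀ x, g x ∈ interior (Prod.fst '' C)) → Continuous (fun x => fhi C (g x)) ∧ Continuous (fun x => flo C (g x)) := by
    intro X _ g hg hgm
    exact ⟨hcf.comp_continuous hg hgm, hcl.comp_continuous hg hgm⟩
  have hin : ∀ p : (B ×ˢ Set.Icc (-1 : ℝ) 1 : Set (V × ℝ)),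
      s • (p : V × ℝ).1 ∈ interior (Prod.fst '' C) := fun p => hB (Set.smul_mem_smul_set p.2.1)
  have hin' : ∀ q : ({p : V × ℝ | p ∈ C ∧ p.1 ∈ s • B} : Set (V × ℝ)),
      (q : V × ℝ).1 ∈ interior (Prod.fst '' C) := fun q => hB q.2.2
  refine ⟨{
    toFun := fun p => ⟨(s • (p : V × ℝ).1,
      (flo C (s • (p : V × ℝ).1) + fhi C (s • (p : V × ℝ).1)) / 2 +
        (fhi C (s • (p : V × ℝ).1) - flo C (s • (p : V × ℝ).1)) / 2 * (p : V × ℝ).2),
      G4_mem hc hx hi (hin p) p.2.2, Set.smul_mem_smul_set p.2.1⟩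
    invFun := fun q => ⟨(s⁻¹ • (q : V × ℝ).1,
      ((q : V × ℝ).2 - (flo C (q : V × ℝ).1 + fhi C (q : V × ℝ).1) / 2) /
        ((fhi C (q : V × ℝ).1 - flo C (q : V × ℝ).1) / 2)),
      (Set.mem_smul_set_iff_inv_smul_mem₀ hs.ne' B _).1 q.2.2, G4_mem_inv hc hx hi (hin' q) q.2.1⟩
    left_inv := ?_
    right_inv := ?_
    continuous_toFun := ?_
    continuous_invFun := ?_ }, ?_⟩
  · intro p
    apply Subtype.ext
    have hl := G4_pos hc hx hi (hin p)
    apply Prod.ext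
    · exact inv_smul_smul₀ hs.ne' _
    · have hl' : (fhi C (s • (p : V × ℝ).1) - flo C (s • (p : V × ℝ).1)) / 2 ≠ 0 := hl.ne'
      show ((flo C (s • (p : V × ℝ).1) + fhi C (s • (p : V × ℝ).1)) / 2 +
        (fhi C (s • (p : V × ℝ).1) - flo C (s • (p : V × ℝ).1)) / 2 * (p : V × ℝ).2 -
        (flo C (s • (p : V × ℝ).1) + fhi C (s • (p : V × ℝ).1)) / 2) /
        ((fhi C (s • (p : V × ℝ).1) - flo C (s • (p : V × ℝ).1)) / 2) = (p : V × ℝ).2
      rw [add_sub_cancel_left, mul_div_cancel_left₀ _ hl']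
  · intro q
    apply Subtype.ext
    have hl := G4_pos hc hx hi (hin' q)
    have h1 : s • (s⁻¹ • (q : V × ℝ).1) = (q : V × ℝ).1 := smul_inv_smul₀ hs.ne' _
    apply Prod.ext
    · exact h1
    · have hl' : (fhi C (q : V × ℝ).1 - flo C (q : V × ℝ).1) / 2 ≠ 0 := hl.ne'
      show (flo C (s • (s⁻¹ • (q : V × ℝ).1)) + fhi C (s • (s⁻¹ • (q : V × ℝ).1))) / 2 +
        (fhi C (s • (s⁻¹ • (q : V × ℝ).1)) - flo C (s • (s⁻¹ • (q : V × ℝ).1))) / 2 *
        (((q : V × ℝ).2 - (flo C (q : V × ℝ).1 + fhi C (q : V × ℝ).1) / 2) /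
        ((fhi C (q : V × ℝ).1 - flo C (q : V × ℝ).1) / 2)) = (q : V × ℝ).2
      rw [h1, mul_div_cancel₀ _ hl', add_sub_cancel]
  · have hg : Continuous (fun p : (B ×ˢ Set.Icc (-1 : ℝ) 1 : Set (V × ℝ)) => s • (p : V × ℝ).1) :=
      (continuous_fst.comp continuous_subtype_val).const_smul s
    obtain ⟨c1, c2⟩ := hcont _ hg hin
    refine Continuous.subtype_mk (hg.prodMk ?_) _
    exact ((c2.add c1).div_const 2).add
      (((c1.sub c2).div_const 2).mul (continuous_snd.comp continuous_subtype_val))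
  · have hg : Continuous (fun q : ({p : V × ℝ | p ∈ C ∧ p.1 ∈ s • B} : Set (V × ℝ)) => (q : V × ℝ).1) :=
      continuous_fst.comp continuous_subtype_val
    obtain ⟨c1, c2⟩ := hcont _ hg hin'
    refine Continuous.subtype_mk ((hg.const_smul s⁻¹).prodMk ?_) _
    exact ((continuous_snd.comp continuous_subtype_val).sub ((c2.add c1).div_const 2)).div
      ((c1.sub c2).div_const 2) (fun q => (G4_pos hc hx hi (hin' q)).ne')
  · intro p
    rfl

end Pool.Agent.LibEN20
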