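import Mathlib

/-!
[EN20 G5] (MEDIUM, only Mathlib) THE RADIAL MAP. `A ⊆ C` closed convex bounded neighbourhoods of `0`, `s • C ⊆ A`, `0 < s ≤ 1`. The homeomorphism `gaugeRescaleHomeomorph A C : E ≃ₜ E` maps `closure A = A` onto `closure C = C` (`image_gaugeRescaleHomeomorph_closure`); restrict it (`Homeomorph.image` and `Homeomorph.setCongr`).
`h p = (gauge A p / gauge C p) • p` (`gaugeRescale_def`) and for `p ≠ 0`: `gauge C p ≤ gauge A p` (`gauge_mono`, `A ⊆ C`) and `gauge A p ≤ gauge (s • C) p = s⁻¹ * gauge C p` (`gauge_mono`, `gauge_smul_left_of_nonneg`), `gauge C p > 0` (`gauge_pos`). For `p = 0` take `ρ = 1` (`gaugeRescale_zero`).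
`A ∈ 𝓝 0` as `s • C ∈ 𝓝 0` (`set_smul_mem_nhds_zero_iff` / `smul_mem_nhds_zero_iff`...). Von Neumann boundedness: `NormedSpace.isVonNBounded_iff`, `IsCompact.isBounded`.
-/

namespace Pool.Agent.LibEN20

open scoped Pointwise Topology

theorem exists_radial_homeo {E : Type*} [NormedAddCommGroup E] [NormedSpace ℝ E] {A C : Set E} (hA : IsClosed A)
    (hC : IsCompact C) (hAc : Convex ℝ A) (hCc : Convex ℝ C) (h0 : C ∈ 𝓝 (0 : E)) {s : ℝ} (hs : 0 < s) (hs1 : s ≤ 1)
    (hsA : s • C ⊆ A) (hAC : A ⊆ C) :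
    ∃ h : A ≃ₜ C, ∀ p : A, ∃ ρ : ℝ, 1 ≤ ρ ∧ ρ ≤ s⁻¹ ∧ (h p : E) = ρ • (p : E) := by
  have hsC : s • C ∈ 𝓝 (0 : E) := (set_smul_mem_nhds_zero_iff hs.ne').2 h0
  have hAn : A ∈ 𝓝 (0 : E) := Filter.mem_of_superset hsC hsA
  have hCb : Bornology.IsVonNBounded ℝ C := NormedSpace.isVonNBounded_of_isBounded ℝ hC.isBounded
  have hAb : Bornology.IsVonNBounded ℝ A :=
    NormedSpace.isVonNBounded_of_isBounded ℝ (hC.isBounded.subset hAC)
  have himg : gaugeRescaleHomeomorph A C hAc hAn hAb hCc h0 hCb '' A = C := by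
    have h1 := image_gaugeRescaleHomeomorph_closure hAc hAn hAb hCc h0 hCb
    rwa [hA.closure_eq, hC.isClosed.closure_eq] at h1
  refine ⟨((gaugeRescaleHomeomorph A C hAc hAn hAb hCc h0 hCb).image A).trans
    (Homeomorph.setCongr himg), fun p => ?_⟩
  have hval : ((((gaugeRescaleHomeomorph A C hAc hAn hAb hCc h0 hCb).image A).trans
    (Homeomorph.setCongr himg)) p : E) = gaugeRescale A C (p : E) := rfl
  rw [hval]
  by_cases hp : (p : E) = 0
  · refine ⟨1, le_rfl, (one_le_inv₀ hs).2 hs1, ?_⟩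
    rw [hp, gaugeRescale_zero, smul_zero]
  · have hpos : 0 < gauge C (p : E) := (gauge_pos (absorbent_nhds_zero h0) hCb).2 hp
    refine ⟨gauge A (p : E) / gauge C (p : E), ?_, ?_, gaugeRescale_def _ _ _⟩
    · rw [one_le_div hpos]
      exact gauge_mono (absorbent_nhds_zero hAn) hAC _
    · rw [div_le_iff₀ hpos]
      have h2 := gauge_mono (absorbent_nhds_zero hsC) hsA (p : E)
      rw [gauge_smul_left_of_nonneg hs.le] at h2
      simpa using h2

end Pool.Agent.LibEN20
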