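import Pool.Agent.LibEN20.G4
import Pool.Agent.LibEN20.G5

/-!
[EN20 G6] (SHORT/MEDIUM) LEMMA G with `0` in the interior: `B = Prod.fst '' C` is bounded by `R > 0`, `s ∈ (0, 1)` with `(1 - s) R ≤ δ`, `s • B ⊆ interior B` (`smul_subset`, `zero_mem`), `A = {p ∈ C | p.1 ∈ s • B}`: closed (`s • B` is compact), convex, `s • C ⊆ A` (`0 ∈ C` convex), `A ⊆ C`.
`g` = `exists_fibre_homeo` followed by `exists_radial_homeo`: `(g p).1 = (ρ s) • p.1` with `s ≤ ρ s ≤ 1`, so the distance to `p.1` is at most `(1 - s) ‖p.1‖ ≤ δ`.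
`lemma_G_gen`: the general case by a translation: `c ∈ interior C`, `C' = {p | p + c ∈ C}` (use the homeomorphism `Homeomorph.addRight c` of `V × ℝ`; `Prod.fst '' C'` is the translate of `Prod.fst '' C` by `-c.1`; a translation of the first coordinate preserves `B × [-1, 1]` and distances).
-/

namespace Pool.Agent.LibEN20

open scoped Pointwise Topology

variable {V : Type*} [NormedAddCommGroup V] [NormedSpace ℝ V] [FiniteDimensional ℝ V] {C : Set (V × ℝ)}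

theorem lemma_G_zero (hc : IsCompact C) (hx : Convex ℝ C) (h0 : C ∈ 𝓝 (0 : V × ℝ)) {δ : ℝ} (hδ : 0 < δ) :
    ∃ g : ((Prod.fst '' C) ×ˢ Set.Icc (-1 : ℝ) 1 : Set (V × ℝ)) ≃ₜ C,
      ∀ p, dist (g p : V × ℝ).1 (p : V × ℝ).1 ≤ δ := by
  set B : Set V := Prod.fst '' C with hBdef
  have hBc : IsCompact B := hc.image continuous_fst
  have hBx : Convex ℝ B := hx.linear_image (LinearMap.fst ℝ V ℝ)
  obtain ⟨R, hR, hRB⟩ := hBc.isBounded.exists_pos_norm_le
  set s : ℝ := max (1 / 2) (1 - δ / R) with hsdef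
  have hs : 0 < s := lt_of_lt_of_le (by norm_num) (le_max_left _ _)
  have hs1 : s < 1 := by
    apply max_lt (by norm_num)
    have : 0 < δ / R := div_pos hδ hR
    linarith
  have hsR : (1 - s) * R ≤ δ := by
    have h1 : 1 - s ≤ δ / R := by
      have := le_max_right (1 / 2) (1 - δ / R)
      rw [← hsdef] at this
      linarith
    calc (1 - s) * R ≤ δ / R * R := mul_le_mul_of_nonneg_right h1 hR.le
      _ = δ := div_mul_cancel₀ _ hR.ne'
  have hB : s • B ⊆ interior B := smul_subset hBx (zero_mem h0) hs.le hs1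
  have h0C : (0 : V × ℝ) ∈ C := mem_of_mem_nhds h0
  have hi : (interior C).Nonempty := ⟨0, mem_interior_iff_mem_nhds.mpr h0⟩
  set A : Set (V × ℝ) := {p : V × ℝ | p ∈ C ∧ p.1 ∈ s • B} with hAdef
  have hA : IsClosed A := hc.isClosed.inter ((hBc.smul s).isClosed.preimage continuous_fst)
  have hAx : Convex ℝ A :=
    hx.inter ((hBx.smul s).linear_preimage (LinearMap.fst ℝ V ℝ))
  have hsA : s • C ⊆ A := by
    rintro _ ⟨q, hq, rfl⟩
    refine ⟨hx.smul_mem_of_zero_mem h0C hq ⟨hs.le, hs1.le⟩, ?_⟩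
    exact Set.smul_mem_smul_set ⟨q, hq, rfl⟩
  have hAC : A ⊆ C := fun p hp => hp.1
  obtain ⟨h1, hh1⟩ := exists_fibre_homeo hc hx hi B hs hB
  obtain ⟨h2, hh2⟩ := exists_radial_homeo hA hc hAx hx h0 hs hs1.le hsA hAC
  refine ⟨h1.trans h2, fun p => ?_⟩
  obtain ⟨ρ, hρ1, hρ2, hρ⟩ := hh2 (h1 p)
  have e1 : ((h1.trans h2 p : C) : V × ℝ).1 = (ρ * s) • (p : V × ℝ).1 := by
    have e2 : ((h1.trans h2 p : C) : V × ℝ) = ρ • ((h1 p : A) : V × ℝ) := hρ
    rw [e2, Prod.smul_fst, hh1 p, smul_smul]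
  have hp : ‖(p : V × ℝ).1‖ ≤ R := hRB _ p.2.1
  rw [e1, dist_eq_norm]
  have e3 : (ρ * s) • (p : V × ℝ).1 - (p : V × ℝ).1 = (ρ * s - 1) • (p : V × ℝ).1 := by
    rw [sub_smul, one_smul]
  rw [e3, norm_smul, Real.norm_eq_abs]
  have h3 : ρ * s ≤ 1 := by
    calc ρ * s ≤ s⁻¹ * s := mul_le_mul_of_nonneg_right hρ2 hs.le
      _ = 1 := inv_mul_cancel₀ hs.ne'
  have h4 : s ≤ ρ * s := by nlinarith
  have h5 : |ρ * s - 1| ≤ 1 - s := by
    rw [abs_le]
    constructor <;> linarith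
  calc |ρ * s - 1| * ‖(p : V × ℝ).1‖ ≤ (1 - s) * R :=
        mul_le_mul h5 hp (norm_nonneg _) (by linarith)
    _ ≤ δ := hsR

theorem lemma_G_gen (hc : IsCompact C) (hx : Convex ℝ C) (hi : (interior C).Nonempty) {δ : ℝ} (hδ : 0 < δ) :
    ∃ g : ((Prod.fst '' C) ×ˢ Set.Icc (-1 : ℝ) 1 : Set (V × ℝ)) ≃ₜ C,
      ∀ p, dist (g p : V × ℝ).1 (p : V × ℝ).1 ≤ δ := by
  obtain ⟨c, hcC⟩ := hi
  set C' : Set (V × ℝ) := (Homeomorph.addRight c) ⁻¹' C with hC'
  have hmem : ∀ p, p ∈ C' ↔ p + c ∈ C := fun p => Iff.rfl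
  have hc' : IsCompact C' := (Homeomorph.addRight c).isCompact_preimage.mpr hc
  have hx' : Convex ℝ C' := by
    intro p hp q hq a b ha hb hab
    rw [hmem] at hp hq ⊢
    have h1 := hx hp hq ha hb hab
    have h2 : a • (p + c) + b • (q + c) = a • p + b • q + c := by
      have h3 : a • c + b • c = c := by rw [← add_smul, hab, one_smul]
      calc a • (p + c) + b • (q + c) = a • p + b • q + (a • c + b • c) := by
            rw [smul_add, smul_add]; abel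
        _ = _ := by rw [h3]
    rwa [h2] at h1
  have h0' : C' ∈ 𝓝 (0 : V × ℝ) := by
    apply (Homeomorph.addRight c).continuous.continuousAt.preimage_mem_nhds
    have h1 : (Homeomorph.addRight c) (0 : V × ℝ) = c := by
      simp
    rw [h1]
    exact mem_interior_iff_mem_nhds.mp hcC
  obtain ⟨g', hg'⟩ := lemma_G_zero hc' hx' h0' hδ
  let e1 : ((Prod.fst '' C) ×ˢ Set.Icc (-1 : ℝ) 1 : Set (V × ℝ)) ≃ₜ
      ((Prod.fst '' C') ×ˢ Set.Icc (-1 : ℝ) 1 : Set (V × ℝ)) :=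
    (Homeomorph.addRight (-(c.1, (0 : ℝ)))).subtype (by
      rintro ⟨x, t⟩
      have h1 : (Homeomorph.addRight (-(c.1, (0 : ℝ)))) (x, t) = (x - c.1, t) := by
        simp [sub_eq_add_neg]
      rw [h1]
      constructor
      · rintro ⟨⟨q, hq, hqx⟩, ht⟩
        refine ⟨⟨q - c, ?_, ?_⟩, ht⟩
        · rw [hmem, sub_add_cancel]
          exact hq
        · rw [Prod.fst_sub, hqx]
      · rintro ⟨⟨q, hq, hqx⟩, ht⟩
        refine ⟨⟨q + c, hq, ?_⟩, ht⟩
        rw [Prod.fst_add, hqx]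
        exact sub_add_cancel x c.1)
  let e2 : C' ≃ₜ C := (Homeomorph.addRight c).subtype (fun p => Iff.rfl)
  have he1 : ∀ p, ((e1 p : ((Prod.fst '' C') ×ˢ Set.Icc (-1 : ℝ) 1 : Set (V × ℝ))) : V × ℝ).1 =
      (p : V × ℝ).1 - c.1 := by
    intro p
    change ((p : V × ℝ) + -(c.1, (0 : ℝ))).1 = _
    simp [sub_eq_add_neg]
  have he2 : ∀ p, ((e2 p : C) : V × ℝ).1 = (p : V × ℝ).1 + c.1 := fun p => rfl
  refine ⟨e1.trans (g'.trans e2), fun p => ?_⟩
  have h1 := hg' (e1 p)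
  have h2 : ((e1.trans (g'.trans e2)) p : C) = e2 (g' (e1 p)) := rfl
  rw [h2, he2]
  rw [he1] at h1
  rw [dist_eq_norm] at h1 ⊢
  have h3 : ((g' (e1 p) : C') : V × ℝ).1 + c.1 - (p : V × ℝ).1 =
      ((g' (e1 p) : C') : V × ℝ).1 - ((p : V × ℝ).1 - c.1) := by abel
  rw [h3]
  exact h1

end Pool.Agent.LibEN20
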