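import Pool.Agent.LibEN20.G6

/-!
[EN20 GZ] LEMMA G (block G, helper28)
-/

namespace Pool.Agent.LibEN20

theorem lemma_G {n : ℕ} (C : Set ((Fin n → ℝ) × ℝ)) (hc : IsCompact C) (hx : Convex ℝ C)
    (hi : (interior C).Nonempty) {δ : ℝ} (hδ : 0 < δ) :
    ∃ g : (((Prod.fst '' C) ×ˢ Set.Icc (-1 : ℝ) 1 : Set ((Fin n → ℝ) × ℝ))) ≃ₜ C,
      ∀ p, dist ((g p : (Fin n → ℝ) × ℝ).1) (p : (Fin n → ℝ) × ℝ).1 ≤ δ :=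
  lemma_G_gen hc hx hi hδ

end Pool.Agent.LibEN20
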