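import Pool.Agent.LibEN20.DefsK

/-!
[EN20 K1] (SHORT/MEDIUM, only Mathlib) Basic facts on the projections `X_n` of `X`. `Xn_compact`, `Xn_convex` (`pr n` is linear and continuous), `ini_image`. `mem_iff`: for compact `X`, `z ∈ X` iff all `pr n z ∈ X_n`: the sets `{x ∈ X | pr n x = pr n z}` are compact, nonempty, decreasing, so they have a common point
(`IsCompact.nonempty_iInter_of_directed_nonempty_isCompact_isClosed` / `nonempty_iInter_of_sequence_nonempty_isCompact_isClosed`), which is `z`.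
-/

namespace Pool.Agent.LibEN20

variable {X : Set (ℕ → ℝ)}

theorem pr_continuous (n : ℕ) : Continuous (pr n) := by
  unfold pr
  fun_prop

theorem ini_continuous {n : ℕ} {α : Type*} [TopologicalSpace α] : Continuous (ini : (Fin (n + 1) → α) → Fin n → α) := by
  unfold ini
  fun_prop

theorem Xn_compact (hX : IsCompact X) (n : ℕ) : IsCompact (Xn X n) :=
  hX.image (pr_continuous n)

theorem Xn_convex (hX : Convex ℝ X) (n : ℕ) : Convex ℝ (Xn X n) := by
  rintro _ ⟨x, hx, rfl⟩ _ ⟨y, hy, rfl⟩ a b ha hb hab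
  exact ⟨a • x + b • y, hX hx hy ha hb hab, rfl⟩

theorem ini_image (X : Set (ℕ → ℝ)) (n : ℕ) : ini '' (Xn X (n + 1)) = Xn X n := by
  ext z
  constructor
  · rintro ⟨_, ⟨x, hx, rfl⟩, rfl⟩
    exact ⟨x, hx, rfl⟩
  · rintro ⟨x, hx, rfl⟩
    exact ⟨pr (n + 1) x, ⟨x, hx, rfl⟩, rfl⟩

theorem mem_iff (hX : IsCompact X) (z : ℕ → ℝ) : z ∈ X ↔ ∀ n, pr n z ∈ Xn X n := by
  constructor
  · intro hz n
    exact ⟨z, hz, rfl⟩
  · intro h
    have hc : ∀ n, IsClosed {x : ℕ → ℝ | pr n x = pr n z} := fun n =>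
      isClosed_eq (pr_continuous n) continuous_const
    obtain ⟨x, hx⟩ := IsCompact.nonempty_iInter_of_sequence_nonempty_isCompact_isClosed
      (fun n => X ∩ {x : ℕ → ℝ | pr n x = pr n z})
      (fun n x hx => ⟨hx.1, by
        have h1 : pr (n + 1) x = pr (n + 1) z := hx.2
        have h2 : pr n x = pr n z := by
          funext i
          exact congrFun h1 i.castSucc
        exact h2⟩)
      (fun n => by
        obtain ⟨x, hx, hxz⟩ := h n
        exact ⟨x, hx, hxz⟩)
      (hX.inter_right (hc 0)) (fun n => hX.isClosed.inter (hc n))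
    rw [Set.mem_iInter] at hx
    have h1 : x = z := by
      funext i
      have h2 : pr (i + 1) x = pr (i + 1) z := (hx (i + 1)).2
      exact congrFun h2 ⟨i, Nat.lt_succ_self i⟩
    rw [← h1]
    exact (hx 0).1

end Pool.Agent.LibEN20
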