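import Pool.Agent.LibEN20.K1
import Pool.Agent.LibEN20.GZ

/-!
[EN20 K2] (MEDIUM) `lemma_G'`: transfer of `lemma_G` to subsets `C` of `Fin (n + 1) → ℝ`: use the linear homeomorphism `e : (Fin (n + 1) → ℝ) ≃ₜ (Fin n → ℝ) × ℝ`, `z ↦ (ini z, z (Fin.last n))` (inverse `Fin.snoc`; continuity by `continuous_pi` and `Fin.lastCases`, or `Homeomorph` from `Fin.consEquiv`-like), `C' = e '' C` (compact, convex, interior
nonempty), `Prod.fst '' C' = ini '' C`, and a homeomorphism `Set.Icc (-1) 1 ≃ₜ unitInterval` (for instance `iccHomeoI`). The homeomorphism `B ×ˢ Icc (-1) 1 ≃ₜ B × Icc (-1) 1` is `Homeomorph.Set.prod`.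
-/

namespace Pool.Agent.LibEN20

private def K2_e (n : ℕ) : (Fin (n + 1) → ℝ) ≃ₜ (Fin n → ℝ) × ℝ where
  toFun z := (ini z, z (Fin.last n))
  invFun p := Fin.snoc (α := fun _ => ℝ) p.1 p.2
  left_inv z := by
    funext i
    refine Fin.lastCases ?_ (fun j => ?_) i
    · simp
    · simp [ini]
  right_inv p := by
    refine Prod.ext ?_ ?_
    · funext i
      simp [ini]
    · simp
  continuous_toFun := ini_continuous.prodMk (continuous_apply _)
  continuous_invFun := by
    refine continuous_pi fun i => ?_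
    refine Fin.lastCases ?_ (fun j => ?_) i
    · simpa using continuous_snd
    · have h : Continuous fun a : (Fin n → ℝ) × ℝ => a.1 j :=
        (continuous_apply j).comp continuous_fst
      simpa using h

private theorem K2_e_fst (n : ℕ) (z : Fin (n + 1) → ℝ) : (K2_e n z).1 = ini z := rfl

private theorem K2_lin (n : ℕ) : IsLinearMap ℝ (K2_e n) where
  map_add _ _ := rfl
  map_smul _ _ := rfl

theorem lemma_G' {n : ℕ} (C : Set (Fin (n + 1) → ℝ)) (hc : IsCompact C) (hx : Convex ℝ C)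
    (hi : (interior C).Nonempty) {δ : ℝ} (hδ : 0 < δ) :
    ∃ g : (ini '' C : Set (Fin n → ℝ)) × unitInterval ≃ₜ C, ∀ p, dist (ini (g p).1) p.1.1 ≤ δ := by
  have hc' : IsCompact (K2_e n '' C) := hc.image (K2_e n).continuous
  have hx' : Convex ℝ (K2_e n '' C) := hx.is_linear_image (K2_lin n)
  have hi' : (interior (K2_e n '' C)).Nonempty := by
    rw [← (K2_e n).image_interior]
    exact hi.image _
  obtain ⟨g, hg⟩ := lemma_G (K2_e n '' C) hc' hx' hi' hδ
  have hS : (ini '' C : Set (Fin n → ℝ)) = Prod.fst '' (K2_e n '' C) := by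
    rw [Set.image_image]
    rfl
  refine ⟨((Homeomorph.setCongr hS).prodCongr
    (iccHomeoI (-1 : ℝ) 1 (by norm_num)).symm).trans
      ((Homeomorph.Set.prod _ _).symm.trans (g.trans ((K2_e n).image C).symm)), ?_⟩
  intro p
  obtain ⟨q, hq⟩ : ∃ q, q = (Homeomorph.Set.prod (Prod.fst '' (K2_e n '' C))
      (Set.Icc (-1 : ℝ) 1)).symm (((Homeomorph.setCongr hS).prodCongr
        (iccHomeoI (-1 : ℝ) 1 (by norm_num)).symm) p) := ⟨_, rfl⟩
  have h1 : (q : (Fin n → ℝ) × ℝ).1 = p.1.1 := by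
    rw [hq]
    rfl
  have h2 : K2_e n (((K2_e n).image C).symm (g q)).1 = (g q).1 := by
    have h3 := congrArg Subtype.val (((K2_e n).image C).apply_symm_apply (g q))
    exact h3
  have h4 : ini (((K2_e n).image C).symm (g q)).1 = (g q).1.1 := by
    rw [← K2_e_fst, h2]
  have h5 := hg q
  rw [h1] at h5
  rw [← h4, hq] at h5
  exact h5

end Pool.Agent.LibEN20
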