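import Pool.Agent.LibEN20.K2

/-!
[EN20 K3] (MEDIUM) THE INDUCTIVE STEP. Given `h : (Fin n → I) ≃ₜ X_n` and `δ > 0`. `h.symm` is uniformly continuous (`CompactSpace.uniformContinuous_of_continuous`, `X_n` compact): `δ' ≤ δ` with `dist a b ≤ δ' → dist (h.symm a) (h.symm b) ≤ δ`. `g` from `lemma_G'` for `C = X_(n+1)`, `δ'`.
`h' = (Fin (n + 1) → I) ≃ₜ (Fin n → I) × I ≃ₜ X_n × I ≃ₜ (ini '' X_(n+1)) × I ≃ₜ X_(n+1)` (`ini_image`, `Homeomorph.setCongr`, `Homeomorph.prodCongr`). First estimate: `ini (h' u) = ini (g (h (ini u), u_n))` is within `δ'` of `h (ini u)`. Second: `z = g (b, t)`, `h'.symm z = (h.symm b, t)`, `ini z` is within `δ'` of `b`.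
-/

namespace Pool.Agent.LibEN20

/-- `(Fin (n + 1) → I) ≃ₜ (Fin n → I) × I` -/
private def K3_split (n : ℕ) (α : Type*) [TopologicalSpace α] :
    (Fin (n + 1) → α) ≃ₜ (Fin n → α) × α where
  toFun u := (ini u, u (Fin.last n))
  invFun p := Fin.snoc (α := fun _ => α) p.1 p.2
  left_inv u := by
    show Fin.snoc (α := fun _ => α) (Fin.init u) (u (Fin.last n)) = u
    exact Fin.snoc_init_self u
  right_inv p := by
    show (Fin.init (Fin.snoc (α := fun _ => α) p.1 p.2),
      Fin.snoc (α := fun _ => α) p.1 p.2 (Fin.last n)) = p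
    rw [Fin.init_snoc, Fin.snoc_last]
  continuous_toFun := ini_continuous.prodMk (continuous_apply _)
  continuous_invFun := by
    refine continuous_pi fun i => ?_
    refine Fin.lastCases ?_ (fun j => ?_) i
    · have h1 : (fun p : (Fin n → α) × α =>
          Fin.snoc (α := fun _ => α) p.1 p.2 (Fin.last n)) = fun p => p.2 := by
        funext p
        exact Fin.snoc_last _ _
      rw [h1]
      exact continuous_snd
    · have h1 : (fun p : (Fin n → α) × α =>
          Fin.snoc (α := fun _ => α) p.1 p.2 j.castSucc) = fun p => p.1 j := by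
        funext p
        exact Fin.snoc_castSucc (α := fun _ => α) _ _ _
      rw [h1]
      exact (continuous_apply j).comp continuous_fst

theorem step_exists {X : Set (ℕ → ℝ)} (hX : IsCompact X) (hc : Convex ℝ X) {n : ℕ}
    (hi : (interior (Xn X (n + 1))).Nonempty) (h : (Fin n → unitInterval) ≃ₜ Xn X n) {δ : ℝ} (hδ : 0 < δ) :
    ∃ h' : (Fin (n + 1) → unitInterval) ≃ₜ Xn X (n + 1),
      (∀ u, dist (ini (h' u).1) (h (ini u)).1 ≤ δ) ∧
      ∀ z, dist (ini (h'.symm z)) (h.symm (iniX z)) ≤ δ := by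
  haveI : CompactSpace (Xn X n) := isCompact_iff_compactSpace.1 (Xn_compact hX n)
  have huc : UniformContinuous h.symm :=
    CompactSpace.uniformContinuous_of_continuous h.symm.continuous
  obtain ⟨δ₀, hδ₀, hmod⟩ := Metric.uniformContinuous_iff.1 huc δ hδ
  have hδ' : 0 < min (δ₀ / 2) δ := lt_min (by linarith) hδ
  obtain ⟨g, hg⟩ := lemma_G' (Xn X (n + 1)) (Xn_compact hX (n + 1)) (Xn_convex hc (n + 1)) hi hδ'
  let q : Xn X n ≃ₜ (ini '' (Xn X (n + 1)) : Set (Fin n → ℝ)) :=
    Homeomorph.setCongr (ini_image X n).symm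
  have hq : ∀ b, (q b).1 = b.1 := fun b => rfl
  have hqs : ∀ b, (q.symm b).1 = b.1 := fun b => rfl
  refine ⟨(K3_split n unitInterval).trans ((h.prodCongr (Homeomorph.refl unitInterval)).trans
    ((q.prodCongr (Homeomorph.refl unitInterval)).trans g)), ?_, ?_⟩
  · intro u
    have h1 := hg (q (h (ini u)), u (Fin.last n))
    rw [hq] at h1
    exact h1.trans (min_le_right _ _)
  · intro z
    have h2 : ini ((K3_split n unitInterval).symm (h.symm (q.symm (g.symm z).1), (g.symm z).2)) =
        h.symm (q.symm (g.symm z).1) :=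
      congrArg Prod.fst ((K3_split n unitInterval).apply_symm_apply
        (h.symm (q.symm (g.symm z).1), (g.symm z).2))
    show dist (ini ((K3_split n unitInterval).symm
      (h.symm (q.symm (g.symm z).1), (g.symm z).2))) (h.symm (iniX z)) ≤ δ
    rw [h2]
    refine (hmod ?_).le
    have h3 := hg (g.symm z)
    rw [g.apply_symm_apply] at h3
    have h4 : dist (q.symm (g.symm z).1) (iniX z) = dist (ini z.1) (g.symm z).1.1 := by
      rw [Subtype.dist_eq, hqs, dist_comm]
      rfl
    rw [h4]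
    have h5 := h3.trans (min_le_left _ _)
    linarith

end Pool.Agent.LibEN20
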