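import Pool.Agent.LibEN20.K3

/-!
[EN20 K4] (SHORT/MEDIUM) The sequence of stages. `modulus`: for a homeomorphism `h` of the cube with `X_n` (compact metric spaces) and `η > 0`, `b > 0` there is `0 < β ≤ b` which is a modulus of `h` and `h.symm` for `η` (uniform continuity). `start`: a stage for `n = 0` (`Fin 0 → I` and `X_0` are one point spaces, `X` nonempty).
`next`: for every stage `s` there is a stage `s'` with `Step s s'` (`step_exists` with `δ = s.β / 2`, then `modulus` with `η = (1/2)^(n+1)`, `b = min (s.β / 2) ((1/2)^(n+1))`). `exists_stages`: dependent choice (`Nat.rec` and `Classical.choose`; define `s` by recursion on `n`).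
-/

namespace Pool.Agent.LibEN20

variable {X : Set (ℕ → ℝ)}

theorem modulus (hX : IsCompact X) {n : ℕ} (h : (Fin n → unitInterval) ≃ₜ Xn X n) {η b : ℝ} (hη : 0 < η)
    (hb : 0 < b) : ∃ β : ℝ, 0 < β ∧ β ≤ b ∧ (∀ a b, dist a b ≤ β → dist (h a) (h b) ≤ η) ∧
      ∀ a b, dist a b ≤ β → dist (h.symm a) (h.symm b) ≤ η := by
  have hC : CompactSpace (Xn X n) := isCompact_iff_compactSpace.1 (Xn_compact hX n)
  have h1 : UniformContinuous h := CompactSpace.uniformContinuous_of_continuous h.continuous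
  have h2 : UniformContinuous h.symm := CompactSpace.uniformContinuous_of_continuous h.symm.continuous
  rw [Metric.uniformContinuous_iff] at h1 h2
  obtain ⟨d1, hd1, H1⟩ := h1 η hη
  obtain ⟨d2, hd2, H2⟩ := h2 η hη
  refine ⟨min b (min (d1 / 2) (d2 / 2)), lt_min hb (lt_min (half_pos hd1) (half_pos hd2)),
    min_le_left _ _, ?_, ?_⟩
  · intro x y hxy
    have h3 : dist x y ≤ d1 / 2 := hxy.trans ((min_le_right _ _).trans (min_le_left _ _))
    exact (H1 (lt_of_le_of_lt h3 (half_lt_self hd1))).le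
  · intro x y hxy
    have h3 : dist x y ≤ d2 / 2 := hxy.trans ((min_le_right _ _).trans (min_le_right _ _))
    exact (H2 (lt_of_le_of_lt h3 (half_lt_self hd2))).le

theorem start (hX : IsCompact X) (hne : X.Nonempty) : Nonempty (St X 0) := by
  obtain ⟨x, hx⟩ := hne
  have hu : ∀ z : Xn X 0, z = ⟨pr 0 x, ⟨x, hx, rfl⟩⟩ := fun z => Subtype.ext (Subsingleton.elim _ _)
  let i1 : Unique (Xn X 0) := { default := ⟨pr 0 x, ⟨x, hx, rfl⟩⟩, uniq := hu }
  let h : (Fin 0 → unitInterval) ≃ₜ Xn X 0 := Homeomorph.homeomorphOfUnique _ _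
  obtain ⟨β, h1, h2, h3, h4⟩ := modulus hX h (η := (1 / 2) ^ 0) (b := (1 / 2) ^ 0) (by norm_num)
    (by norm_num)
  exact ⟨⟨h, β, h1, h2, h3, h4⟩⟩

theorem next (hX : IsCompact X) (hc : Convex ℝ X) {n : ℕ} (hi : (interior (Xn X (n + 1))).Nonempty) (s : St X n) :
    ∃ s' : St X (n + 1), Step s s' := by
  obtain ⟨h', c1, c2⟩ := step_exists hX hc hi s.h (half_pos s.pos)
  have hp : (0 : ℝ) < (1 / 2) ^ (n + 1) := by positivity
  obtain ⟨β, h1, h2, h3, h4⟩ := modulus hX h' (η := (1 / 2) ^ (n + 1))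
    (b := min (s.β / 2) ((1 / 2) ^ (n + 1))) hp (lt_min (half_pos s.pos) hp)
  exact ⟨⟨h', β, h1, h2.trans (min_le_right _ _), h3, h4⟩,
    ⟨h2.trans (min_le_left _ _), c1, c2⟩⟩

theorem exists_stages (hX : IsCompact X) (hc : Convex ℝ X) (hne : X.Nonempty)
    (hi : ∀ n, (interior (Xn X n)).Nonempty) : ∃ s : ∀ n, St X n, ∀ n, Step (s n) (s (n + 1)) := by
  let s : ∀ n, St X n := fun n => Nat.rec (motive := fun n => St X n)
    (Classical.choice (start hX hne))
    (fun n t => Classical.choose (next hX hc (hi (n + 1)) t)) n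
  exact ⟨s, fun n => Classical.choose_spec (next hX hc (hi (n + 1)) (s n))⟩

end Pool.Agent.LibEN20
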