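import Pool.Agent.LibEN20.DefsK

/-!
[EN20 K5] (MEDIUM, only Mathlib) LIMITS. `F n : Z → (Fin n → ℝ)` continuous, `F (n + 1)` without its last coordinate is within `β n / 2` of `F n`, `β (n + 1) ≤ β n / 2`. For a fixed coordinate `i` the real functions `z ↦ F n z i`, `n > i`, satisfy `|F (n + 1) z i - F n z i| ≤ β n / 2`, and `∑_{m ≥ n} β m / 2 ≤ β n`
(`β m ≤ β n / 2 ^ (m - n)`): uniformly Cauchy; let `G z i` be the limit (`cauchySeq_of_le_geometric`, `dist_le_of_le_geometric_of_tendsto`), continuous as a uniform limit (`TendstoUniformly.continuous`), and `|G z i - F n z i| ≤ β n` for `i < n`.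
`β m ≤ (1/2)^(m - n) β n` and, for `m ≥ n`, `|F m z i - F n z i| ≤ β n - β m ≤ β n` by induction (`β m / 2 ≤ β m - β (m+1)`) is a quick way: the sequence `F m z i` is Cauchy as `|F m' z i - F m z i| ≤ β m → 0`.
-/

namespace Pool.Agent.LibEN20

private theorem K5_beta (β : ℕ → ℝ) (hβ2 : ∀ n, β (n + 1) ≤ β n / 2) (n : ℕ) :
    β n ≤ β 0 * (1 / 2) ^ n := by
  induction n with
  | zero => rw [pow_zero, mul_one]
  | succ n ih =>
    have h1 := hβ2 n
    rw [pow_succ]
    linarith

theorem lim_exists {Z : Type*} [TopologicalSpace Z] (F : ∀ n : ℕ, Z → (Fin n → ℝ)) (hF : ∀ n, Continuous (F n))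
    (β : ℕ → ℝ) (hβ : ∀ n, 0 ≤ β n) (hβ2 : ∀ n, β (n + 1) ≤ β n / 2)
    (h : ∀ n z, dist (ini (F (n + 1) z)) (F n z) ≤ β n / 2) :
    ∃ G : Z → (ℕ → ℝ), Continuous G ∧ ∀ n z, dist (pr n (G z)) (F n z) ≤ β n := by
  obtain ⟨f, hf⟩ : ∃ f : ℕ → ℕ → Z → ℝ, ∀ i m z, f i m z = F (i + 1 + m) z ⟨i, by omega⟩ :=
    ⟨fun i m z => F (i + 1 + m) z ⟨i, by omega⟩, fun _ _ _ => rfl⟩
  have hstep : ∀ i m z, dist (f i m z) (f i (m + 1) z) ≤ β (i + 1 + m) / 2 := by
    intro i m z
    have h1 := (dist_le_pi_dist (ini (F (i + 1 + m + 1) z)) (F (i + 1 + m) z) ⟨i, by omega⟩).trans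
      (h (i + 1 + m) z)
    rw [dist_comm, hf, hf]
    exact h1
  have htel : ∀ i m z l, dist (f i m z) (f i (m + l) z) ≤ β (i + 1 + m) - β (i + 1 + m + l) := by
    intro i m z l
    induction l with
    | zero => simp
    | succ l ih =>
      have h1 := dist_triangle (f i m z) (f i (m + l) z) (f i (m + l + 1) z)
      have h2 := hstep i (m + l) z
      have h3 := hβ2 (i + 1 + m + l)
      have e1 : i + 1 + (m + l) = i + 1 + m + l := by omega
      rw [e1] at h2
      have e2 : m + (l + 1) = m + l + 1 := by omega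
      have e3 : i + 1 + m + (l + 1) = i + 1 + m + l + 1 := by omega
      rw [e2, e3]
      linarith
  have hβ0 := hβ 0
  have hβle : ∀ i m, β (i + 1 + m) ≤ β 0 * (1 / 2) ^ m := by
    intro i m
    refine (K5_beta β hβ2 _).trans ?_
    refine mul_le_mul_of_nonneg_left ?_ hβ0
    exact pow_le_pow_of_le_one (by norm_num) (by norm_num) (by omega)
  have hex : ∀ z i, ∃ g : ℝ, Filter.Tendsto (fun m => f i m z) Filter.atTop (nhds g) := by
    intro z i
    apply cauchySeq_tendsto_of_complete
    refine cauchySeq_of_le_geometric (1 / 2) (β 0) (by norm_num) fun m => ?_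
    have h1 := hstep i m z
    have h2 := hβle i m
    have h3 := hβ (i + 1 + m)
    linarith
  choose G hG using hex
  have hclose : ∀ z i m, dist (G z i) (f i m z) ≤ β (i + 1 + m) := by
    intro z i m
    have h1 : Filter.Tendsto (fun l => dist (f i (m + l) z) (f i m z)) Filter.atTop
        (nhds (dist (G z i) (f i m z))) := by
      refine Filter.Tendsto.dist ?_ tendsto_const_nhds
      have h2 := (Filter.tendsto_add_atTop_iff_nat (f := fun l => f i l z) m).2 (hG z i)
      refine h2.congr fun l => ?_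
      rw [add_comm]
    refine le_of_tendsto h1 (Filter.Eventually.of_forall fun l => ?_)
    rw [dist_comm]
    have h2 := htel i m z l
    have h3 := hβ (i + 1 + m + l)
    linarith
  refine ⟨G, ?_, ?_⟩
  · rw [continuous_pi_iff]
    intro i
    have hu : TendstoUniformly (fun m z => f i m z) (fun z => G z i) Filter.atTop := by
      rw [Metric.tendstoUniformly_iff]
      intro ε hε
      have h1 : Filter.Tendsto (fun m : ℕ => β 0 * (1 / 2 : ℝ) ^ m) Filter.atTop (nhds (β 0 * 0)) :=
        (tendsto_pow_atTop_nhds_zero_of_lt_one (by norm_num) (by norm_num)).const_mul _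
      rw [mul_zero] at h1
      filter_upwards [h1.eventually (gt_mem_nhds hε)] with m hm z
      exact ((hclose z i m).trans (hβle i m)).trans_lt hm
    refine hu.continuous (Filter.Frequently.of_forall fun m => ?_)
    have h1 : (fun z => f i m z) = fun z => F (i + 1 + m) z ⟨i, by omega⟩ := by
      funext z
      exact hf i m z
    rw [h1]
    exact (continuous_apply _).comp (hF (i + 1 + m))
  · intro n z
    rw [dist_pi_le_iff (hβ n)]
    rintro ⟨i, hi⟩
    obtain ⟨m, rfl⟩ := Nat.exists_eq_add_of_le (Nat.succ_le_of_lt hi)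
    have h1 := hclose z i m
    rw [hf] at h1
    exact h1

end Pool.Agent.LibEN20
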