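import Pool.Agent.LibEN20.K1
import Pool.Agent.LibEN20.K5

/-!
[EN20 K6] (MEDIUM) The two limit maps of a compatible sequence of stages. `H`: `lim_exists` for `Z = (ℕ → I)`, `F n x = (s n).h (fun i => x i)`, `β n = (s n).β`; `H x ∈ X` by `mem_iff`: `pr n (H x) ∈ X_n` as `X_n` is closed and `pr n (H x)` is the limit of `pr n` of the elements of `X` which project to `(s m).h (x|m)`, `m → ∞` (distance to `X_n` is
`≤ β m → 0` for all `m ≥ n`: restrict `dist (pr m (H x)) ((s m).h ..) ≤ β m` to the first `n` coordinates). `G`: `lim_exists` for `Z = X`, `F n z i = (((s n).h.symm ⟨pr n z, _⟩) i : ℝ)`; every coordinate is in `[0, 1]` (closed).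
-/

namespace Pool.Agent.LibEN20

variable {X : Set (ℕ → ℝ)}

private theorem K6_exists_pow {ε : ℝ} (hε : 0 < ε) (n : ℕ) : ∃ m, n ≤ m ∧ ((1 : ℝ) / 2) ^ m < ε := by
  obtain ⟨k, hk⟩ := exists_pow_lt_of_lt_one hε (show (1 : ℝ) / 2 < 1 by norm_num)
  refine ⟨max n k, le_max_left _ _, lt_of_le_of_lt ?_ hk⟩
  exact pow_le_pow_of_le_one (by norm_num) (by norm_num) (le_max_right _ _)

theorem exists_H (hX : IsCompact X) (s : ∀ n, St X n) (hs : ∀ n, Step (s n) (s (n + 1))) :
    ∃ H : (ℕ → unitInterval) → X, Continuous H ∧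
      ∀ n (x : ℕ → unitInterval), dist (pr n (H x).1) ((s n).h fun i => x i).1 ≤ (s n).β := by
  obtain ⟨G, hG, hGd⟩ := lim_exists (Z := ℕ → unitInterval)
    (fun n x => ((s n).h fun i => x i).1)
    (fun n => by
      refine continuous_subtype_val.comp ((s n).h.continuous.comp ?_)
      exact continuous_pi fun i => continuous_apply _)
    (fun n => (s n).β) (fun n => (s n).pos.le) (fun n => (hs n).half)
    (fun n z => (hs n).c1 (fun i => z i))
  have hmem : ∀ x, G x ∈ X := by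
    intro x
    rw [mem_iff hX]
    intro n
    have hcl : IsClosed (Xn X n) := (Xn_compact hX n).isClosed
    rw [← hcl.closure_eq, Metric.mem_closure_iff]
    intro ε hε
    obtain ⟨m, hnm, hm⟩ := K6_exists_pow hε n
    obtain ⟨y, hy, hyx⟩ := ((s m).h fun i => x i).2
    refine ⟨pr n y, ⟨y, hy, rfl⟩, ?_⟩
    have h1 : dist (pr m (G x)) (pr m y) ≤ (s m).β := by
      rw [hyx]
      exact hGd m x
    have h2 : dist (pr n (G x)) (pr n y) ≤ dist (pr m (G x)) (pr m y) := by
      rw [dist_pi_le_iff dist_nonneg]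
      intro i
      exact dist_le_pi_dist (pr m (G x)) (pr m y) ⟨i, lt_of_lt_of_le i.2 hnm⟩
    exact lt_of_le_of_lt (h2.trans (h1.trans (s m).le)) hm
  exact ⟨fun x => ⟨G x, hmem x⟩, hG.subtype_mk _, fun n x => hGd n x⟩

theorem exists_G (hX : IsCompact X) (s : ∀ n, St X n) (hs : ∀ n, Step (s n) (s (n + 1))) :
    ∃ G : X → (ℕ → unitInterval), Continuous G ∧
      ∀ n (z : X), dist (fun i : Fin n => G z i) ((s n).h.symm ⟨pr n z.1, z.1, z.2, rfl⟩) ≤ (s n).β := by
  obtain ⟨G, hG, hGd⟩ := lim_exists (Z := X)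
    (fun n z i => (((s n).h.symm ⟨pr n z.1, z.1, z.2, rfl⟩) i : ℝ))
    (fun n => by
      have h1 : Continuous fun z : X => (⟨pr n z.1, z.1, z.2, rfl⟩ : Xn X n) :=
        ((pr_continuous n).comp continuous_subtype_val).subtype_mk _
      have h2 := (s n).h.symm.continuous.comp h1
      exact continuous_pi fun i => continuous_subtype_val.comp ((continuous_apply i).comp h2))
    (fun n => (s n).β) (fun n => (s n).pos.le) (fun n => (hs n).half)
    (fun n z => by
      have h1 := (hs n).c2 ⟨pr (n + 1) z.1, z.1, z.2, rfl⟩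
      have h0 : 0 ≤ (s n).β / 2 := by have := (s n).pos; positivity
      rw [dist_pi_le_iff h0] at h1 ⊢
      intro i
      exact h1 i)
  have hmem : ∀ z i, G z i ∈ unitInterval := by
    intro z i
    have hcl : IsClosed (unitInterval : Set ℝ) := isClosed_Icc
    rw [← hcl.closure_eq, Metric.mem_closure_iff]
    intro ε hε
    obtain ⟨m, hnm, hm⟩ := K6_exists_pow hε (i + 1)
    refine ⟨_, (((s m).h.symm ⟨pr m z.1, z.1, z.2, rfl⟩) ⟨i, hnm⟩).2, ?_⟩
    have h1 := hGd m z
    have h2 := dist_le_pi_dist (pr m (G z))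
      (fun i => (((s m).h.symm ⟨pr m z.1, z.1, z.2, rfl⟩) i : ℝ)) ⟨i, hnm⟩
    exact lt_of_le_of_lt (h2.trans (h1.trans (s m).le)) hm
  refine ⟨fun z i => ⟨G z i, hmem z i⟩, ?_, ?_⟩
  · exact continuous_pi fun i => ((continuous_apply i).comp hG).subtype_mk _
  · intro n z
    rw [dist_pi_le_iff (s n).pos.le]
    intro i
    exact (dist_le_pi_dist (pr n (G z))
      (fun i => (((s n).h.symm ⟨pr n z.1, z.1, z.2, rfl⟩) i : ℝ)) i).trans (hGd n z)

end Pool.Agent.LibEN20
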