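import Pool.Agent.LibEN20.K4
import Pool.Agent.LibEN20.K6

/-!
[EN20 K7] (MEDIUM) KELLER'S THEOREM. `s` from `exists_stages`, `H`, `G` from K6. `G (H x) = x`: `pr n (H x)` is within `β n` of `(s n).h (x|n)`, so by `m2` `(s n).h.symm (pr n (H x))` is within `(1/2)^n` of `x|n`, and `G (H x)|n` is within `β n ≤ (1/2)^n` of it: `|G (H x) i - x i| ≤ 2 (1/2)^n` for all `n > i`. `H (G z) = z` in the same way with `m1`.
-/

namespace Pool.Agent.LibEN20

private theorem K7_zero (d : ℝ) (i : ℕ) (h : ∀ n, i < n → d ≤ 2 * (1 / 2) ^ n) : d ≤ 0 := by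
  by_contra hd
  have hd' : 0 < d / 2 := by
    have := not_le.1 hd
    linarith
  obtain ⟨n, hn⟩ := exists_pow_lt_of_lt_one hd' (by norm_num : (1 / 2 : ℝ) < 1)
  have h1 := h (n + i + 1) (by omega)
  have h2 : (1 / 2 : ℝ) ^ (n + i + 1) ≤ (1 / 2) ^ n :=
    pow_le_pow_of_le_one (by norm_num) (by norm_num) (by omega)
  linarith

theorem keller {X : Set (ℕ → ℝ)} (hX : IsCompact X) (hc : Convex ℝ X) (hi : ∀ n, (interior (Xn X n)).Nonempty) :
    Nonempty (X ≃ₜ (ℕ → unitInterval)) := by
  have hne : X.Nonempty := by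
    obtain ⟨y, hy⟩ := hi 0
    obtain ⟨x, hx, -⟩ := interior_subset hy
    exact ⟨x, hx⟩
  obtain ⟨s, hs⟩ := exists_stages hX hc hne hi
  obtain ⟨H, hHc, hH⟩ := exists_H hX s hs
  obtain ⟨G, hGc, hG⟩ := exists_G hX s hs
  have e1 : ∀ x, G (H x) = x := by
    intro x
    funext i
    apply dist_le_zero.1
    apply K7_zero _ i
    intro n hn
    have a1 : dist (⟨pr n (H x).1, (H x).1, (H x).2, rfl⟩ : Xn X n) ((s n).h fun i => x i) ≤ (s n).β := hH n x
    have a2 := (s n).m2 _ _ a1
    rw [Homeomorph.symm_apply_apply] at a2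
    have a3 := hG n (H x)
    have a4 := (dist_triangle (fun i : Fin n => G (H x) i)
      ((s n).h.symm ⟨pr n (H x).1, (H x).1, (H x).2, rfl⟩) (fun i : Fin n => x i))
    have a5 := dist_le_pi_dist (fun i : Fin n => G (H x) i) (fun i : Fin n => x i) ⟨i, hn⟩
    have a6 := (s n).le
    have a7 : dist (G (H x) i) (x i) ≤ dist (fun i : Fin n => G (H x) i) (fun i : Fin n => x i) := a5
    linarith
  have e2 : ∀ z, H (G z) = z := by
    intro z
    apply Subtype.ext
    funext i
    apply dist_le_zero.1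
    apply K7_zero _ i
    intro n hn
    have a1 := hG n z
    have a2 := (s n).m1 _ _ a1
    rw [Homeomorph.apply_symm_apply] at a2
    have a3 : dist ((s n).h fun i : Fin n => G z i).1 (pr n z.1) ≤ (1 / 2) ^ n := a2
    have a4 := hH n (G z)
    have a5 := dist_triangle (pr n (H (G z)).1) ((s n).h fun i : Fin n => G z i).1 (pr n z.1)
    have a6 : dist ((H (G z)).1 i) (z.1 i) ≤ dist (pr n (H (G z)).1) (pr n z.1) :=
      dist_le_pi_dist (pr n (H (G z)).1) (pr n z.1) ⟨i, hn⟩
    have a7 := (s n).le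
    linarith
  exact ⟨{ toFun := G
           invFun := H
           left_inv := e2
           right_inv := e1
           continuous_toFun := hGc
           continuous_invFun := hHc }⟩

end Pool.Agent.LibEN20
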