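import Pool.Agent.LibEN20.E9
import Pool.Agent.LibEN20.C4
import Pool.Agent.LibEN20.K7

/-!
[EN20 Z] (SHORT) Assembly.
-/

namespace Pool.Agent.LibEN20

theorem main_embed {E : Type*} [NormedAddCommGroup E] [Module ℝ E] [ContinuousSMul ℝ E] (hF : IsFNorm E) {K : Set E}
    (hK : IsCompact K) (hc : Convex ℝ K) (hs : Summable fun k : ℕ => ent K k / (k + 1)) :
    ∃ Ψ : E →ₗ[ℝ] (ℕ → ℝ), ContinuousOn Ψ K ∧ Set.InjOn Ψ K :=
  exists_embed hK fun _ hx _ hy hxy => separating hc (lc0 hF hK hc hs) hx hy hxy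

theorem main_cube {E : Type*} [NormedAddCommGroup E] [Module ℝ E] [ContinuousSMul ℝ E] (hF : IsFNorm E) {K : Set E}
    (hK : IsCompact K) (hc : Convex ℝ K) (hs : Summable fun k : ℕ => ent K k / (k + 1))
    (hinf : ¬ FiniteDimensional ℝ (vectorSpan ℝ K)) : Nonempty (K ≃ₜ (ℕ → unitInterval)) := by
  obtain ⟨X, h1, h2, h3, ⟨h4⟩⟩ := exists_coord hK hc hinf
    fun _ hx _ hy hxy => separating hc (lc0 hF hK hc hs) hx hy hxy
  obtain ⟨h5⟩ := keller h1 h2 h3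
  exact ⟨h4.trans h5⟩

end Pool.Agent.LibEN20
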